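import Pool.Agent.TH181.MW.Cov

/-!
# Covering by cells and the dimension of an upper limit, in several variables
-/

set_option autoImplicit false

open Finset MeasureTheory

namespace Pool.Agent.Q39.RD

lemma card_cells (K : Finset ℤ) (F : Set ℝ) (δ V : ℝ) (hδ : 0 < δ) (hV : 0 ≤ V)
    (h : ∀ k ∈ K, ∀ t : ℝ, (k : ℝ) * δ ≤ t → t < ((k : ℝ) + 1) * δ → t ∈ F)
    (hF : volume F ≤ ENNReal.ofReal V) : (K.card : ℝ) ≤ V / δ := by
  classical
  have h1 : (⋃ m ∈ K, Set.Ico ((m : ℝ) * δ) (((m : ℝ) + 1) * δ)) ⊆ F := by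
    intro t' ht'
    rw [Set.mem_iUnion₂] at ht'
    obtain ⟨m, hm, hm'⟩ := ht'
    exact h m hm t' hm'.1 hm'.2
  have h2 : volume (⋃ m ∈ K, Set.Ico ((m : ℝ) * δ) (((m : ℝ) + 1) * δ)) =
      (K.card : ENNReal) * ENNReal.ofReal δ := by
    rw [measure_biUnion_finset]
    · have : ∀ m ∈ K, volume (Set.Ico ((m : ℝ) * δ) (((m : ℝ) + 1) * δ)) = ENNReal.ofReal δ := by
        intro m _
        rw [Real.volume_Ico]
        congr 1
        ring
      rw [Finset.sum_congr rfl this, Finset.sum_const, nsmul_eq_mul]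
    · intro m _ n _ hmn
      change Disjoint _ _
      rw [Set.disjoint_left]
      intro x hx hx'
      apply hmn
      have g1 : (m : ℝ) * δ < ((n : ℝ) + 1) * δ := lt_of_le_of_lt hx.1 hx'.2
      have g2 : (n : ℝ) * δ < ((m : ℝ) + 1) * δ := lt_of_le_of_lt hx'.1 hx.2
      have g3 : (m : ℝ) < (n : ℝ) + 1 := lt_of_mul_lt_mul_right g1 hδ.le
      have g4 : (n : ℝ) < (m : ℝ) + 1 := lt_of_mul_lt_mul_right g2 hδ.le
      have g5 : m < n + 1 := by exact_mod_cast g3
      have g6 : n < m + 1 := by exact_mod_cast g4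
      omega
    · intro m _
      exact measurableSet_Ico
  have h3 : (K.card : ENNReal) * ENNReal.ofReal δ ≤ ENNReal.ofReal V := by
    rw [← h2]; exact (measure_mono h1).trans hF
  have h4 : (K.card : ENNReal) * ENNReal.ofReal δ = ENNReal.ofReal ((K.card : ℝ) * δ) := by
    rw [ENNReal.ofReal_mul (by positivity), ENNReal.ofReal_natCast]
  rw [h4, ENNReal.ofReal_le_ofReal_iff hV] at h3
  rwa [le_div_iff₀ hδ]

/-- Hausdorff dimension of an upper limit of sets covered by few small sets -/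
theorem dim_limsup {X : Type} [EMetricSpace X] [MeasurableSpace X] [BorelSpace X] (A L D : ℝ)
    (B : ℕ → Set X) (hL : 0 < L) (hD : 0 < D) (hAL : A < L * D)
    (hcov : ∃ i0 : ℕ, ∀ i : ℕ, i0 ≤ i → ∃ S : Finset (Set X), (S.card : ℝ) ≤ ((2 : ℝ) ^ i) ^ A ∧
      (∀ U ∈ S, Metric.ediam U ≤ ENNReal.ofReal (((2 : ℝ) ^ i) ^ (-L))) ∧ B i ⊆ ⋃ U ∈ S, U) :
    dimH {c : X | ∀ i1 : ℕ, ∃ i : ℕ, i1 ≤ i ∧ c ∈ B i} ≤ ENNReal.ofReal D := by
  classical
  obtain ⟨i0, hi0⟩ := hcov
  choose! S hS1 hS3 hS2 using hi0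
  set E : Set X := {c : X | ∀ i1 : ℕ, ∃ i : ℕ, i1 ≤ i ∧ c ∈ B i} with hE
  set ρ : ℝ := (2 : ℝ) ^ (A - L * D) with hρ
  have hρ0 : 0 < ρ := by positivity
  have hρ1 : ρ < 1 := Real.rpow_lt_one_of_one_lt_of_neg (by norm_num) (by linarith)
  have hpow : ∀ (i : ℕ) (c : ℝ), ((2 : ℝ) ^ i) ^ c = ((2 : ℝ) ^ c) ^ i := by
    intro i c
    rw [← Real.rpow_natCast, ← Real.rpow_mul (by norm_num), mul_comm, Real.rpow_mul (by norm_num),
      Real.rpow_natCast]
  have key : μH[D] E ≤ ENNReal.ofReal (1 / (1 - ρ)) := by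
    have h1 := Measure.hausdorffMeasure_le_liminf_tsum (X := X) (β := ℕ)
      (ι := fun n : ℕ => Σ i : ℕ, {U : Set X // U ∈ S (n + i0 + i)}) D E (l := Filter.atTop)
      (fun n : ℕ => ENNReal.ofReal (((2 : ℝ) ^ (-L)) ^ (n + i0))) (by
        have g1 : Filter.Tendsto (fun n : ℕ => ((2 : ℝ) ^ (-L)) ^ (n + i0)) Filter.atTop (nhds 0) := by
          have g2 := tendsto_pow_atTop_nhds_zero_of_lt_one (r := (2 : ℝ) ^ (-L)) (by positivity)
            (Real.rpow_lt_one_of_one_lt_of_neg (by norm_num) (by linarith))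
          exact (Filter.tendsto_add_atTop_iff_nat i0).mpr g2
        have g3 := ENNReal.tendsto_ofReal g1
        rwa [ENNReal.ofReal_zero] at g3)
      (fun n v => v.2.1)
      (by
        apply Filter.Eventually.of_forall
        intro n v
        refine (hS3 (n + i0 + v.1) (by omega) v.2.1 v.2.2).trans ?_
        rw [hpow]
        apply ENNReal.ofReal_le_ofReal
        exact pow_le_pow_of_le_one (by positivity)
            (Real.rpow_lt_one_of_one_lt_of_neg (by norm_num) (by linarith)).le (by omega))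
      (by
        apply Filter.Eventually.of_forall
        intro n c hc
        obtain ⟨i, hi1, hi2⟩ := hc (n + i0)
        obtain ⟨m, rfl⟩ := Nat.exists_eq_add_of_le hi1
        have g1 := hS2 (n + i0 + m) (by omega) hi2
        rw [Set.mem_iUnion₂] at g1
        obtain ⟨x, hx, hx'⟩ := g1
        rw [Set.mem_iUnion]
        exact ⟨⟨m, ⟨x, hx⟩⟩, hx'⟩)
    refine h1.trans ?_
    apply Filter.liminf_le_of_le (f := Filter.atTop) (hf := by isBoundedDefault)
    intro b hb
    rw [Filter.eventually_atTop] at hb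
    obtain ⟨n, hn⟩ := hb
    refine (hn n le_rfl).trans ?_
    rw [ENNReal.tsum_sigma']
    have g1 : ∀ i : ℕ, ∑' x : {x : Set X // x ∈ S (n + i0 + i)},
        Metric.ediam (x.1) ^ D ≤ ENNReal.ofReal (ρ ^ i) := by
      intro i
      have g2 : ∀ x : {x : Set X // x ∈ S (n + i0 + i)},
          Metric.ediam (x.1) ^ D ≤
          ENNReal.ofReal (((2 : ℝ) ^ (n + i0 + i)) ^ (-(L * D))) := by
        intro x
        refine (ENNReal.rpow_le_rpow (hS3 (n + i0 + i) (by omega) x.1 x.2) hD.le).trans ?_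
        rw [ENNReal.ofReal_rpow_of_nonneg (by positivity) hD.le]
        apply le_of_eq
        congr 1
        rw [← Real.rpow_mul (by positivity)]
        congr 1
        ring
      refine (ENNReal.tsum_le_tsum g2).trans ?_
      rw [tsum_fintype, Finset.sum_const, Finset.card_univ, Fintype.card_coe, nsmul_eq_mul,
        ← ENNReal.ofReal_natCast, ← ENNReal.ofReal_mul (by positivity)]
      apply ENNReal.ofReal_le_ofReal
      have g3 := hS1 (n + i0 + i) (by omega)
      calc ((S (n + i0 + i)).card : ℝ) * ((2 : ℝ) ^ (n + i0 + i)) ^ (-(L * D))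
          ≤ ((2 : ℝ) ^ (n + i0 + i)) ^ A * ((2 : ℝ) ^ (n + i0 + i)) ^ (-(L * D)) :=
            mul_le_mul_of_nonneg_right g3 (by positivity)
        _ = ρ ^ (n + i0 + i) := by
            rw [← Real.rpow_add (by positivity), ← sub_eq_add_neg, hpow, hρ]
        _ ≤ ρ ^ i := pow_le_pow_of_le_one hρ0.le hρ1.le (by omega)
    refine (ENNReal.tsum_le_tsum g1).trans ?_
    have g4 : Summable (fun i : ℕ => ρ ^ i) := summable_geometric_of_lt_one hρ0.le hρ1
    rw [← ENNReal.ofReal_tsum_of_nonneg (fun i => by positivity) g4, tsum_geometric_of_lt_one hρ0.le hρ1,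
      one_div]
  have h2 : μH[((D.toNNReal : NNReal) : ℝ)] E ≠ ⊤ := by
    rw [Real.coe_toNNReal D hD.le]
    exact ne_top_of_le_ne_top ENNReal.ofReal_ne_top key
  exact dimH_le_of_hausdorffMeasure_ne_top h2

/-- the cell with index `m` -/
def cell {r : ℕ} (δ : ℝ) (m : Fin r → ℤ) : Set (Fin r → ℝ) := {α | ∀ j, ⌊α j / δ⌋ = m j}

lemma mem_cell_iff {r : ℕ} {δ : ℝ} (hδ : 0 < δ) (m : Fin r → ℤ) (α : Fin r → ℝ) :
    α ∈ cell δ m ↔ ∀ j, (m j : ℝ) * δ ≤ α j ∧ α j < ((m j : ℝ) + 1) * δ := by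
  unfold cell
  simp only [Set.mem_ofPred_eq]
  refine forall_congr' fun j => ?_
  rw [Int.floor_eq_iff, le_div_iff₀ hδ, div_lt_iff₀ hδ]

lemma ediam_cell {r : ℕ} {δ : ℝ} (hδ : 0 < δ) (m : Fin r → ℤ) :
    Metric.ediam (cell δ m) ≤ ENNReal.ofReal δ := by
  apply Metric.ediam_le
  intro x hx y hy
  rw [mem_cell_iff hδ] at hx hy
  rw [edist_pi_le_iff]
  intro j
  rw [edist_dist, Real.dist_eq]
  apply ENNReal.ofReal_le_ofReal
  have h1 := hx j
  have h2 := hy j
  rw [abs_le]
  constructor <;> nlinarith [h1.1, h1.2, h2.1, h2.2]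

/-- Few cells: if for each choice of the cells of the coordinates other than `j₀` at most `W` cells in the
direction `j₀` are bad, then at most `|I| ^ (r-1) W` cells are bad. -/
lemma card_lines {r : ℕ} (I : Finset ℤ) (T : Finset (Fin r → ℤ)) (j₀ : Fin r) (W : ℕ)
    (hT : ∀ m ∈ T, ∀ j, m j ∈ I)
    (hW : ∀ m' : Fin r → ℤ, ((T.filter fun m => ∀ j, j ≠ j₀ → m j = m' j).image fun m => m j₀).card ≤ W) :
    T.card ≤ W * I.card ^ (r - 1) := by
  classical
  have h1 : T.card ≤ W * (T.image fun m => Function.update m j₀ 0).card := by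
    apply card_le_mul_card_image
    intro m' hm'
    have h2 : (T.filter fun m => Function.update m j₀ 0 = m').card ≤
        ((T.filter fun m => ∀ j, j ≠ j₀ → m j = m' j).image fun m => m j₀).card := by
      rw [← Finset.card_image_of_injOn (s := T.filter fun m => Function.update m j₀ 0 = m')
        (f := fun m => m j₀)]
      · apply Finset.card_le_card
        intro k hk
        rw [Finset.mem_image] at hk ⊢
        obtain ⟨m, hm, rfl⟩ := hk
        rw [Finset.mem_filter] at hm
        refine ⟨m, ?_, rfl⟩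
        rw [Finset.mem_filter]
        refine ⟨hm.1, fun j hj => ?_⟩
        rw [← hm.2, Function.update_of_ne hj]
      · intro m hm n hn hmn
        simp only [Finset.coe_filter, Set.mem_ofPred_eq] at hm hn
        funext j
        by_cases hj : j = j₀
        · rw [hj]; exact hmn
        · have e1 := congrFun hm.2 j
          have e2 := congrFun hn.2 j
          rw [Function.update_of_ne hj] at e1 e2
          rw [e1, e2]
    exact h2.trans (hW m')
  refine h1.trans (Nat.mul_le_mul_left W ?_)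
  have h3 : (T.image fun m => Function.update m j₀ 0) ⊆
      Fintype.piFinset fun j => if j = j₀ then ({0} : Finset ℤ) else I := by
    intro m' hm'
    rw [Finset.mem_image] at hm'
    obtain ⟨m, hm, rfl⟩ := hm'
    rw [Fintype.mem_piFinset]
    intro j
    by_cases hj : j = j₀
    · subst hj
      simp
    · rw [Function.update_of_ne hj, if_neg hj]
      exact hT m hm j
  refine (Finset.card_le_card h3).trans ?_
  rw [Fintype.card_piFinset]
  have h4 : ∀ j : Fin r, (if j = j₀ then ({0} : Finset ℤ) else I).card =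
      if j = j₀ then 1 else I.card := by
    intro j
    split_ifs <;> simp
  simp_rw [h4]
  rw [Finset.prod_ite, Finset.prod_const_one, one_mul, Finset.prod_const, Finset.filter_ne',
    Finset.card_erase_of_mem (Finset.mem_univ _), Finset.card_univ, Fintype.card_fin]

end Pool.Agent.Q39.RD
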