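import Pool.Agent.Q39.RD.Final
import Pool.Agent.TH668.Met.Expo

/-!
# Record prime gaps along one-parameter families of sequences: the dimension of the exceptional
parameters
-/

set_option autoImplicit false

open Finset Filter MeasureTheory

namespace Pool.Agent.Q39.RD

open Pool.Agent.TH668.Met
open Pool.Agent.H469R2.NK (e norm_e e_add conj_e)
open Pool.Agent.W147.PS (ff)
open Pool.Agent.W928.MW (ev_pow ev_log)

open Classical in
/-- the criterion, with the number of the good indices -/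
theorem crit_many1 (η : ℝ) (h0 : 0 < η) (h1 : η ≤ 1) :
    ∃ κ : ℝ, 0 < κ ∧ ∀ᶠ M : ℝ in atTop, ∀ (s : Finset ℕ) (a : ℕ → ℝ), s.Nonempty →
      (∀ i ∈ s, M ^ η ≤ a i) →
      (∀ q h : ℕ, 1 ≤ q → (q : ℝ) ≤ M ^ η → 1 ≤ h → (h : ℝ) ≤ M ^ (4 * η) →
        ‖∑ i ∈ s, e ((h : ℝ) / q * a i)‖ ≤ s.card * M ^ (-(5 * η))) →
      s.card * M ^ (-(5 * η)) ≤
        ((s.filter fun i => ∀ q : ℕ, q.Prime → κ * ff M < |(q : ℝ) - a i|).card : ℝ) := by
  obtain ⟨κ, hκ, hcrit⟩ := Pool.Agent.TH915.PW.crit_scaled η h0 h1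
  refine ⟨κ, hκ, ?_⟩
  filter_upwards [hcrit, eventually_ge_atTop (1 : ℝ),
    (tendsto_rpow_atTop h0).eventually_ge_atTop 4] with M hM hM1 hM4
  intro s a hs ha hE
  by_contra hcon
  push Not at hcon
  have hM0 : 0 < M := by linarith
  set G := s.filter fun i => ∀ q : ℕ, q.Prime → κ * ff M < |(q : ℝ) - a i| with hG
  have hGs : G ⊆ s := Finset.filter_subset _ _
  have hcs : (0 : ℝ) < s.card := by exact_mod_cast Finset.card_pos.2 hs
  set z : ℝ := M ^ (-η) with hz
  set w : ℝ := M ^ (-(4 * η)) with hw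
  have hz0 : 0 < z := by positivity
  have hw0 : 0 < w := by positivity
  have hw1 : w ≤ 1 := Real.rpow_le_one_of_one_le_of_nonpos hM1 (by linarith)
  have hz4 : z ≤ 1 / 4 := by
    rw [hz, Real.rpow_neg hM0.le, ← one_div]
    exact one_div_le_one_div_of_le (by norm_num) hM4
  have hz2 : M ^ (-(5 * η)) = w * z := by
    rw [hz, hw, ← Real.rpow_add hM0]
    congr 1; ring
  rw [hz2] at hcon hE
  have hcard : ((s \ G).card : ℝ) = s.card - G.card := by
    rw [Finset.cast_card_sdiff hGs]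
  have hzz : (s.card : ℝ) * (w * z) ≤ s.card * (w * (1 / 4)) :=
    mul_le_mul_of_nonneg_left (mul_le_mul_of_nonneg_left hz4 hw0.le) hcs.le
  have hz1 : (s.card : ℝ) * w ≤ s.card * 1 := mul_le_mul_of_nonneg_left hw1 hcs.le
  have hhalf : (s.card : ℝ) / 2 ≤ ((s \ G).card : ℝ) := by
    rw [hcard]
    nlinarith
  have hne : (s \ G).Nonempty := by
    rw [← Finset.card_pos]
    have : (0 : ℝ) < ((s \ G).card : ℝ) := by linarith
    exact_mod_cast this
  obtain ⟨i, hi, hi2⟩ := hM ℕ (s \ G) a hne (fun i hi => ha i (Finset.mem_sdiff.1 hi).1) (by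
    intro q h hq hqM hh hhM
    have h2 := hE q h hq hqM hh hhM
    have h3 : ∑ i ∈ s \ G, e ((h : ℝ) / q * a i) =
        ∑ i ∈ s, e ((h : ℝ) / q * a i) - ∑ i ∈ G, e ((h : ℝ) / q * a i) := by
      rw [← Finset.sum_sdiff hGs]
      ring
    have h4 : ‖∑ i ∈ G, e ((h : ℝ) / q * a i)‖ ≤ G.card := by
      refine (norm_sum_le _ _).trans (le_of_eq ?_)
      simp only [norm_e]
      rw [sum_const, nsmul_eq_mul, mul_one]
    rw [h3]
    refine (norm_sub_le _ _).trans ?_
    have h5 : (s.card : ℝ) / 2 * w ≤ ((s \ G).card : ℝ) * w :=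
      mul_le_mul_of_nonneg_right hhalf hw0.le
    linarith)
  have hiG : i ∈ G := by
    rw [hG, Finset.mem_filter]
    exact ⟨(Finset.mem_sdiff.1 hi).1, hi2⟩
  exact (Finset.mem_sdiff.1 hi).2 hiG

/-- mean square over a dyadic block -/
theorem mean_fam (u v ρ : ℝ) (huv : u ≤ v) (n₀ : ℕ) (F F' F'' : ℕ → ℝ → ℝ)
    (hF : Fam u v ρ n₀ F F' F'') (hρ1 : ρ ≤ 1) (N : ℕ) (hN : 1 ≤ N) (hn₀ : n₀ ≤ N) (θ : ℝ)
    (hθ : 0 < θ) :
    ∫ x, ‖∑ n ∈ Ioc N (2 * N), e (θ * F n x)‖ ^ 2 ∂(volume.restrict (Set.Ioc u v)) ≤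
      N * ((v - u) + 2 * (1 / (θ * (2 * N : ℝ) ^ (ρ - 1)) * (1 + Real.log N))) := by
  have hN0 : (0 : ℝ) < N := by exact_mod_cast hN
  have huv0 : 0 ≤ v - u := by linarith
  have hcont : ∀ n, Continuous (F n) := fun n =>
    continuous_iff_continuousAt.2 fun x => (hF.d1 n x).continuousAt
  have hcard : ((Ioc N (2 * N)).card : ℝ) = N := by
    rw [Nat.card_Ioc]
    congr 1
    omega
  have hvol : (volume.restrict (Set.Ioc u v)).real Set.univ = v - u := by
    rw [measureReal_restrict_apply_univ, measureReal_def, Real.volume_Ioc,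
      ENNReal.toReal_ofReal huv0]
  have hkey : ∀ n m : ℕ, n ∈ Finset.Ioc N (2 * N) → m ∈ Finset.Ioc N (2 * N) → n < m →
      ‖∫ x, e (θ * (F m x - F n x)) ∂(volume.restrict (Set.Ioc u v))‖ ≤
        1 / (θ * (2 * N : ℝ) ^ (ρ - 1)) / ((m - n : ℕ) : ℝ) := by
    intro n m hn hm hnm
    rw [Finset.mem_Ioc] at hn hm
    obtain ⟨k, rfl⟩ := Nat.exists_eq_add_of_le hnm.le
    rw [Nat.add_sub_cancel_left]
    have hk0 : (0 : ℝ) < k := by
      have : 0 < k := by omega
      exact_mod_cast this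
    rw [div_div, ← intervalIntegral.integral_of_le huv]
    apply vdc u v (θ * (2 * N : ℝ) ^ (ρ - 1) * k) huv (fun x => θ * (F (n + k) x - F n x))
      (fun x => θ * (F' (n + k) x - F' n x)) (fun x => θ * (F'' (n + k) x - F'' n x))
      (fun x => ((hF.d1 _ x).sub (hF.d1 _ x)).const_mul θ)
      (fun x => ((hF.d2 _ x).sub (hF.d2 _ x)).const_mul θ)
      (continuous_const.mul ((hF.co _).sub (hF.co _))) (by positivity)
    · intro x hx
      have h3 := (hF.far hρ1 N hN hn₀ n k (by omega) hm.2 x hx).1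
      have e1 : θ * (2 * N : ℝ) ^ (ρ - 1) * k = θ * (k * (2 * N : ℝ) ^ (ρ - 1)) := by ring
      rw [e1]
      exact mul_le_mul_of_nonneg_left h3 hθ.le
    · intro x hx
      have h3 := (hF.far hρ1 N hN hn₀ n k (by omega) hm.2 x hx).2
      positivity
  refine (mean_sq_gen _ _ F hcont θ).trans ?_
  have h1 : ∀ n ∈ Ioc N (2 * N), ∑ m ∈ Ioc N (2 * N),
      ‖∫ x, e (θ * (F n x - F m x)) ∂(volume.restrict (Set.Ioc u v))‖ ≤
        (v - u) + 2 * (1 / (θ * (2 * N : ℝ) ^ (ρ - 1)) * (1 + Real.log N)) := by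
    intro n hn
    refine recip N n hn _ _ _ (by positivity) ?_ ?_ ?_
    · refine (norm_integral_le_integral_norm _).trans (le_of_eq ?_)
      simp only [norm_e]
      rw [integral_const, smul_eq_mul, mul_one, hvol]
    · intro m hm hlt
      exact hkey m n hm hn hlt
    · intro m hm hlt
      refine le_trans (le_of_eq ?_) (hkey n m hn hm hlt)
      rw [← Complex.norm_conj, ← integral_conj]
      congr 2
      ext x
      rw [conj_e]
      congr 1
      ring
  refine (sum_le_sum h1).trans (le_of_eq ?_)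
  rw [sum_const, nsmul_eq_mul, hcard]

/-- Chebyshev -/
lemma cheb_fam (s : Finset ℕ) (F : ℕ → ℝ → ℝ) (hcont : ∀ n, Continuous (F n)) (θ u v μ B : ℝ)
    (hμ : 0 < μ)
    (hB : ∫ x, ‖∑ n ∈ s, e (θ * F n x)‖ ^ 2 ∂(volume.restrict (Set.Ioc u v)) ≤ B) :
    volume {x : ℝ | u < x ∧ x ≤ v ∧ μ ≤ ‖∑ n ∈ s, e (θ * F n x)‖} ≤
      ENNReal.ofReal (B / μ ^ 2) := by
  set f : ℝ → ℝ := fun x => ‖∑ n ∈ s, e (θ * F n x)‖ ^ 2 with hf
  have hfc : Continuous f := by
    refine Continuous.pow (Continuous.norm ?_) 2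
    exact continuous_finsetSum _ fun n _ => continuous_e.comp (continuous_const.mul (hcont n))
  have hfb : ∀ x, ‖f x‖ ≤ ((s.card : ℝ)) ^ 2 := by
    intro x
    rw [hf]
    simp only
    rw [norm_pow, norm_norm]
    refine pow_le_pow_left₀ (norm_nonneg _) ((norm_sum_le _ _).trans (le_of_eq ?_)) 2
    simp only [norm_e]
    rw [sum_const, nsmul_eq_mul, mul_one]
  have hfi : Integrable f (volume.restrict (Set.Ioc u v)) :=
    Integrable.of_bound hfc.aestronglyMeasurable _ (Filter.Eventually.of_forall hfb)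
  have h1 := mul_meas_ge_le_integral_of_nonneg (μ := volume.restrict (Set.Ioc u v))
    (f := f) (Filter.Eventually.of_forall fun x => by simp only [hf, Pi.zero_apply]; positivity) hfi (μ ^ 2)
  have h2 : {x : ℝ | u < x ∧ x ≤ v ∧ μ ≤ ‖∑ n ∈ s, e (θ * F n x)‖} =
      {x : ℝ | μ ^ 2 ≤ f x} ∩ Set.Ioc u v := by
    ext x
    simp only [Set.mem_ofPred_eq, Set.mem_inter_iff, Set.mem_Ioc, hf]
    have : μ ≤ ‖∑ n ∈ s, e (θ * F n x)‖ ↔ μ ^ 2 ≤ ‖∑ n ∈ s, e (θ * F n x)‖ ^ 2 :=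
      (pow_le_pow_iff_left₀ hμ.le (norm_nonneg _) (by norm_num)).symm
    rw [this]
    tauto
  have hmeas : MeasurableSet {x : ℝ | μ ^ 2 ≤ f x} := measurableSet_le measurable_const hfc.measurable
  rw [h2, ← Measure.restrict_apply hmeas]
  have hfin : volume.restrict (Set.Ioc u v) {x : ℝ | μ ^ 2 ≤ f x} ≠ ⊤ := by
    rw [Measure.restrict_apply hmeas]
    exact ne_top_of_le_ne_top measure_Ioc_lt_top.ne (measure_mono Set.inter_subset_right)
  rw [← ENNReal.ofReal_toReal hfin]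
  apply ENNReal.ofReal_le_ofReal
  rw [le_div_iff₀ (by positivity), mul_comm]
  exact h1.trans hB

/-- bad parameters at the scale `2 ^ i` -/
def BdF (F : ℕ → ℝ → ℝ) (η u v : ℝ) (i : ℕ) : Set ℝ :=
  {x | u ≤ x ∧ x ≤ v ∧ ∃ q h : ℕ, 1 ≤ q ∧ (q : ℝ) ≤ ((2 : ℝ) ^ i) ^ η ∧ 1 ≤ h ∧
    (h : ℝ) ≤ ((2 : ℝ) ^ i) ^ (4 * η) ∧
    ((2 : ℝ) ^ i) ^ (1 - 5 * η) ≤ ‖∑ n ∈ Ioc (2 ^ i) (2 * 2 ^ i), e ((h : ℝ) / q * F n x)‖}

open Classical in
theorem cover_fam (ρ c η u v u' v' : ℝ) (hρ : 0 ≤ ρ) (hρ1 : ρ ≤ 1) (hη : 0 < η) (hc : 0 < c)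
    (hu : u < u') (huv : u' ≤ v') (hv : v' < v) (n₀ : ℕ) (F F' F'' : ℕ → ℝ → ℝ)
    (hF : Fam u v ρ n₀ F F' F'')
    (hFc : ∀ n, n₀ ≤ n → ∀ x ∈ Set.Icc u v, |F' n x| ≤ (n : ℝ) ^ c) :
    ∃ i0 : ℕ, ∀ i : ℕ, i0 ≤ i → ∃ S : Finset (Set ℝ),
      (S.card : ℝ) ≤ ((2 : ℝ) ^ i) ^ ((c + 10 * η) + (-ρ) + 19 * η) ∧
      (∀ U ∈ S, Metric.ediam U ≤ ENNReal.ofReal (((2 : ℝ) ^ i) ^ (-(c + 10 * η)))) ∧
      BdF F η u' v' i ⊆ ⋃ U ∈ S, U := by
  have hpi := Real.pi_pos
  obtain ⟨i1, h1⟩ := ev_pow η hη (4 * Real.pi * 2 ^ c + ((v - u) + 4) + 4 + 1)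
  obtain ⟨i2, h2⟩ := ev_log η hη 1
  obtain ⟨i3, h3⟩ := ev_pow c hc (1 / (u' - u) + 1 / (v - v') + 1)
  refine ⟨i1 + i2 + i3 + n₀ + 1, fun i hi => ?_⟩
  have g1 := h1 i (by omega)
  have g2 := h2 i (by omega)
  have g3 := h3 i (by omega)
  set X : ℝ := (2 : ℝ) ^ i with hX
  have hX2 : (2 : ℝ) ≤ X := by
    rw [hX]
    calc (2 : ℝ) = 2 ^ 1 := (pow_one _).symm
      _ ≤ 2 ^ i := pow_le_pow_right₀ (by norm_num) (by omega)
  have hX1 : (1 : ℝ) ≤ X := by linarith
  have hX0 : (0 : ℝ) < X := by linarith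
  have hNX : (((2 ^ i : ℕ) : ℕ) : ℝ) = X := by push_cast; rfl
  set P : ℝ := X ^ η with hP
  set Y : ℝ := X ^ c with hY
  set R : ℝ := X ^ (-ρ) with hR
  have hP1 : 1 ≤ P := Real.one_le_rpow hX1 hη.le
  have hP0 : 0 < P := by linarith
  have hY0 : 0 < Y := by positivity
  have hR0 : 0 < R := by positivity
  have t1 : 0 ≤ 4 * Real.pi * (2 : ℝ) ^ c := by positivity
  have t3 : 0 < 1 / (u' - u) := by
    have : 0 < u' - u := by linarith
    positivity
  have t4 : 0 < 1 / (v - v') := by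
    have : 0 < v - v' := by linarith
    positivity
  have k1 : 4 * Real.pi * (2 : ℝ) ^ c ≤ P := by linarith
  have k2 : (v - u) + 4 ≤ P := by linarith
  have k3 : 4 ≤ P := by linarith
  have k4 : 1 + Real.log X ≤ P := by
    have := Real.log_nonneg hX1
    linarith
  -- powers
  have hPk : ∀ k : ℕ, X ^ (η * k) = P ^ k := by
    intro k
    rw [hP, ← Real.rpow_natCast, ← Real.rpow_mul hX0.le]
  have hW : X ^ (c + 10 * η) = Y * P ^ 10 := by
    rw [Real.rpow_add hX0, ← hPk 10]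
    congr 2
    push_cast
    ring
  set W : ℝ := Y * P ^ 10 with hWdef
  have hW0 : 0 < W := by positivity
  have hP10 : 1 ≤ P ^ 10 := one_le_pow₀ hP1
  have hYW : Y ≤ W := le_mul_of_one_le_right hY0.le hP10
  have hδ : X ^ (-(c + 10 * η)) = W⁻¹ := by
    rw [Real.rpow_neg hX0.le, hW]
  rw [hδ]
  set δ : ℝ := W⁻¹ with hδdef
  have hδ0 : 0 < δ := by positivity
  have hδu : δ < u' - u := by
    rw [hδdef, inv_lt_comm₀ hW0 (by linarith), ← one_div]
    linarith
  have hδv : δ < v - v' := by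
    rw [hδdef, inv_lt_comm₀ hW0 (by linarith), ← one_div]
    linarith
  have hμ : X ^ (1 - 5 * η) = X / P ^ 5 := by
    rw [Real.rpow_sub hX0, Real.rpow_one, ← hPk 5]
    congr 2
    push_cast
    ring
  have hP4 : X ^ (4 * η) = P ^ 4 := by
    rw [← hPk 4]
    congr 1
    push_cast
    ring
  have hμ0 : 0 < X / P ^ 5 := by positivity
  set d : ℝ := (2 * X) ^ (ρ - 1) with hd
  have hd0 : 0 < d := by positivity
  have hdinv : d⁻¹ ≤ 2 * (X * R) := by
    rw [hd, ← Real.rpow_neg (by positivity), Real.mul_rpow (by norm_num) hX0.le]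
    have e1 : X ^ (-(ρ - 1)) = X * R := by
      rw [hR, show (-(ρ - 1) : ℝ) = 1 + (-ρ) by ring, Real.rpow_add hX0, Real.rpow_one]
    rw [e1]
    apply mul_le_mul_of_nonneg_right _ (by positivity)
    calc (2 : ℝ) ^ (-(ρ - 1)) ≤ (2 : ℝ) ^ (1 : ℝ) :=
          Real.rpow_le_rpow_of_exponent_le (by norm_num) (by linarith)
      _ = 2 := Real.rpow_one _
  have hn₀N : n₀ ≤ 2 ^ i := by
    have : i < 2 ^ i := Nat.lt_two_pow_self
    omega
  have hN1 : 1 ≤ 2 ^ i := Nat.one_le_two_pow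
  have hcont : ∀ n, Continuous (F n) := fun n =>
    continuous_iff_continuousAt.2 fun x => (hF.d1 n x).continuousAt
  have hcard : ((Ioc (2 ^ i) (2 * 2 ^ i)).card : ℝ) = X := by
    rw [Nat.card_Ioc, ← hNX]
    congr 1
    omega
  -- the cover
  set Q : Finset ℕ := Finset.Icc 1 ⌊P⌋₊ with hQ
  set Hs : Finset ℕ := Finset.Icc 1 ⌊P ^ 4⌋₊ with hHs
  set Tf : ℕ × ℕ → Finset ℤ := fun p => (Finset.Icc ⌊u / δ⌋ ⌊v / δ⌋).filter
      fun m => ∃ x : ℝ, u' ≤ x ∧ x ≤ v' ∧
        X / P ^ 5 ≤ ‖∑ n ∈ Ioc (2 ^ i) (2 * 2 ^ i), e ((p.2 : ℝ) / p.1 * F n x)‖ ∧ ⌊x / δ⌋ = m with hTf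
  refine ⟨(Q ×ˢ Hs).biUnion fun p => (Tf p).image (fun m : ℤ => Set.Ico (m * δ) ((m + 1) * δ)),
    ?_, ?_, ?_⟩
  · -- the number
    have hone : ∀ p ∈ Q ×ˢ Hs, ((((Tf p).image
        (fun m : ℤ => Set.Ico (m * δ) ((m + 1) * δ))).card : ℕ) : ℝ) ≤ 4 * (R * P ^ 13 * W) := by
      rintro ⟨q, h⟩ hp
      rw [Finset.mem_product, hQ, hHs, Finset.mem_Icc, Finset.mem_Icc] at hp
      simp only at hp
      obtain ⟨⟨hq1, hq2⟩, hh1, hh2⟩ := hp
      have hqP : (q : ℝ) ≤ P := (Nat.le_floor_iff hP0.le).1 hq2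
      have hhP : (h : ℝ) ≤ P ^ 4 := (Nat.le_floor_iff (by positivity)).1 hh2
      have hq0 : (0 : ℝ) < q := by exact_mod_cast hq1
      have hq1' : (1 : ℝ) ≤ q := by exact_mod_cast hq1
      have hh1' : (1 : ℝ) ≤ h := by exact_mod_cast hh1
      have hθ : (0 : ℝ) < (h : ℝ) / q := by positivity
      have hmean := mean_fam u v ρ (by linarith) n₀ F F' F'' hF hρ1 (2 ^ i) hN1 hn₀N _ hθ
      have hch := cheb_fam _ F hcont ((h : ℝ) / q) u v (X / P ^ 5 / 2) _ (by positivity) hmean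
      rw [hNX, ← hd] at hch
      set B : ℝ := X * (v - u + 2 * (1 / ((h : ℝ) / q * d) * (1 + Real.log X))) with hB
      have hlog : 0 ≤ Real.log X := Real.log_nonneg hX1
      have huv0 : 0 ≤ v - u := by linarith
      have hB0 : 0 ≤ B := by positivity
      have hcells := card_cells (Tf (q, h)) _ δ (B / (X / P ^ 5 / 2) ^ 2) hδ0 (by positivity)
        (by
          intro m hm t ht1 ht2
          rw [hTf, Finset.mem_filter] at hm
          obtain ⟨_, x, hx1, hx2, hx3, hx4⟩ := hm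
          rw [Int.floor_eq_iff, le_div_iff₀ hδ0, div_lt_iff₀ hδ0] at hx4
          have hut : u < t := by nlinarith
          have htv : t ≤ v := by nlinarith
          refine ⟨hut, htv, ?_⟩
          simp only at hx3
          have hlip : ‖∑ n ∈ Ioc (2 ^ i) (2 * 2 ^ i), e ((h : ℝ) / q * F n x) -
              ∑ n ∈ Ioc (2 ^ i) (2 * 2 ^ i), e ((h : ℝ) / q * F n t)‖ ≤
              X * (2 * Real.pi * (P ^ 4 * ((2 * X) ^ c * δ))) := by
            rw [← Finset.sum_sub_distrib]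
            refine (norm_sum_le _ _).trans ?_
            refine (Finset.sum_le_card_nsmul _ _ (2 * Real.pi * (P ^ 4 * ((2 * X) ^ c * δ)))
              fun n hn => ?_).trans (le_of_eq (by rw [nsmul_eq_mul, hcard]))
            rw [Finset.mem_Ioc] at hn
            refine (e_lip _ _).trans ?_
            apply mul_le_mul_of_nonneg_left _ (by positivity)
            rw [← mul_sub, abs_mul, abs_of_pos hθ]
            apply mul_le_mul _ _ (abs_nonneg _) (by positivity)
            · exact (div_le_self (by positivity) hq1').trans hhP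
            · have hA : ∀ y ∈ Set.Icc u v, ‖F' n y‖ ≤ (2 * X) ^ c := by
                intro y hy
                rw [Real.norm_eq_abs]
                refine (hFc n (by omega) y hy).trans ?_
                apply Real.rpow_le_rpow (by positivity) _ hc.le
                have h7 : ((n : ℕ) : ℝ) ≤ ((2 * 2 ^ i : ℕ) : ℝ) := by exact_mod_cast hn.2
                refine h7.trans (le_of_eq ?_)
                push_cast
                rfl
              have hmv := Convex.norm_image_sub_le_of_norm_hasDerivWithin_le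
                (f := F n) (f' := F' n) (s := Set.Icc u v) (x := t) (y := x)
                (fun y _ => (hF.d1 n y).hasDerivWithinAt) hA (convex_Icc u v)
                ⟨hut.le, htv⟩ ⟨by linarith, by linarith⟩
              rw [Real.norm_eq_abs, Real.norm_eq_abs] at hmv
              refine hmv.trans ?_
              apply mul_le_mul_of_nonneg_left _ (by positivity)
              rw [abs_le]
              constructor <;> nlinarith
          have hsmall : X * (2 * Real.pi * (P ^ 4 * ((2 * X) ^ c * δ))) ≤ X / P ^ 5 / 2 := by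
            rw [Real.mul_rpow (by norm_num) hX0.le, ← hY, hδdef, hWdef]
            have e1 : X * (2 * Real.pi * (P ^ 4 * (2 ^ c * Y * (Y * P ^ 10)⁻¹))) =
                (4 * Real.pi * 2 ^ c) * (X / P ^ 6) / 2 := by
              field_simp
              ring
            rw [e1]
            apply div_le_div_of_nonneg_right _ (by norm_num)
            calc (4 * Real.pi * 2 ^ c) * (X / P ^ 6) ≤ P * (X / P ^ 6) :=
                  mul_le_mul_of_nonneg_right k1 (by positivity)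
              _ = X / P ^ 5 := by field_simp
          have hn1 := norm_sub_norm_le
            (∑ n ∈ Ioc (2 ^ i) (2 * 2 ^ i), e ((h : ℝ) / q * F n x))
            (∑ n ∈ Ioc (2 ^ i) (2 * 2 ^ i), e ((h : ℝ) / q * F n t))
          linarith) hch
      refine le_trans ?_ (hcells.trans ?_)
      · exact_mod_cast Finset.card_image_le
      · have f1 : 1 / ((h : ℝ) / q * d) ≤ 2 * P * (X * R) := by
          have e1 : 1 / ((h : ℝ) / q * d) = q / h * d⁻¹ := by
            field_simp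
          rw [e1]
          have e2 : (q : ℝ) / h ≤ P := (div_le_self (by positivity) hh1').trans hqP
          calc (q : ℝ) / h * d⁻¹ ≤ P * (2 * (X * R)) :=
                mul_le_mul e2 hdinv (by positivity) hP0.le
            _ = _ := by ring
        have f2 : 1 ≤ X * R := by
          rw [hR]
          have : X * X ^ (-ρ) = X ^ (1 - ρ) := by
            rw [sub_eq_add_neg, Real.rpow_add hX0, Real.rpow_one]
          rw [this]
          exact Real.one_le_rpow hX1 (by linarith)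
        have f3 : v - u + 2 * (1 / ((h : ℝ) / q * d) * (1 + Real.log X)) ≤
            X * R * P ^ 3 := by
          have f4 : 1 / ((h : ℝ) / q * d) * (1 + Real.log X) ≤ 2 * P * (X * R) * P :=
            mul_le_mul f1 k4 (by positivity) (by positivity)
          have f5 : v - u ≤ (v - u) * (P ^ 2 * (X * R)) :=
            le_mul_of_one_le_right huv0
              (one_le_mul_of_one_le_of_one_le (one_le_pow₀ hP1) f2)
          have f6 : ((v - u) + 4) * (P ^ 2 * (X * R)) ≤ P * (P ^ 2 * (X * R)) :=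
            mul_le_mul_of_nonneg_right k2 (by positivity)
          have f6' : X * R * P ^ 3 = P * (P ^ 2 * (X * R)) := by ring
          have f6'' : ((v - u) + 4) * (P ^ 2 * (X * R)) =
            (v - u) * (P ^ 2 * (X * R)) + 2 * (2 * P * (X * R) * P) := by ring
          rw [f6']
          linarith
        have f8 : 4 * (R * P ^ 13 * W) = X * (X * R * P ^ 3) / (X / P ^ 5 / 2) ^ 2 / δ := by
          rw [hδdef]
          field_simp
          ring
        rw [f8, hB]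
        gcongr
    have hQc : (Q.card : ℝ) ≤ P := by
      rw [hQ, Nat.card_Icc, Nat.add_sub_cancel]
      exact Nat.floor_le hP0.le
    have hHc : (Hs.card : ℝ) ≤ P ^ 4 := by
      rw [hHs, Nat.card_Icc, Nat.add_sub_cancel]
      exact Nat.floor_le (by positivity)
    have htot : ((2 : ℝ) ^ i) ^ ((c + 10 * η) + (-ρ) + 19 * η) = W * R * P ^ 19 := by
      rw [← hX, Real.rpow_add hX0, Real.rpow_add hX0, hW, ← hPk 19]
      congr 2
      push_cast
      ring
    calc ((((Q ×ˢ Hs).biUnion fun p =>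
          (Tf p).image (fun m : ℤ => Set.Ico (m * δ) ((m + 1) * δ))).card : ℕ) : ℝ)
        ≤ ((∑ p ∈ Q ×ˢ Hs,
            ((Tf p).image (fun m : ℤ => Set.Ico (m * δ) ((m + 1) * δ))).card : ℕ) : ℝ) := by
          exact_mod_cast Finset.card_biUnion_le
      _ = ∑ p ∈ Q ×ˢ Hs,
            ((((Tf p).image (fun m : ℤ => Set.Ico (m * δ) ((m + 1) * δ))).card : ℕ) : ℝ) := by
          push_cast; rfl
      _ ≤ ∑ p ∈ Q ×ˢ Hs, 4 * (R * P ^ 13 * W) := Finset.sum_le_sum hone
      _ = (Q.card : ℝ) * Hs.card * (4 * (R * P ^ 13 * W)) := by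
          rw [Finset.sum_const, Finset.card_product, nsmul_eq_mul]
          push_cast
          ring
      _ ≤ P * P ^ 4 * (4 * (R * P ^ 13 * W)) := by
          gcongr
      _ = 4 * (W * R * P ^ 18) := by ring
      _ ≤ P * (W * R * P ^ 18) := mul_le_mul_of_nonneg_right k3 (by positivity)
      _ = _ := by
          rw [htot]
          ring
  · intro U hU
    rw [Finset.mem_biUnion] at hU
    obtain ⟨p, _, hU⟩ := hU
    rw [Finset.mem_image] at hU
    obtain ⟨m, _, rfl⟩ := hU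
    rw [Real.ediam_Ico]
    apply ENNReal.ofReal_le_ofReal
    linarith
  · rintro x ⟨hx1, hx2, q, h, hq1, hq2, hh1, hh2, hbig⟩
    rw [← hX] at hq2 hh2 hbig
    rw [hμ] at hbig
    rw [hP4] at hh2
    rw [Set.mem_iUnion₂]
    have hfl : (⌊x / δ⌋ : ℝ) * δ ≤ x ∧ x < ((⌊x / δ⌋ : ℝ) + 1) * δ := by
      have := Int.floor_eq_iff.1 (rfl : ⌊x / δ⌋ = ⌊x / δ⌋)
      rwa [le_div_iff₀ hδ0, div_lt_iff₀ hδ0] at this
    refine ⟨Set.Ico ((⌊x / δ⌋ : ℝ) * δ) (((⌊x / δ⌋ : ℝ) + 1) * δ), ?_, hfl⟩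
    rw [Finset.mem_biUnion]
    refine ⟨(q, h), ?_, ?_⟩
    · rw [Finset.mem_product, hQ, hHs, Finset.mem_Icc, Finset.mem_Icc]
      exact ⟨⟨hq1, Nat.le_floor hq2⟩, hh1, Nat.le_floor hh2⟩
    · rw [Finset.mem_image]
      refine ⟨⌊x / δ⌋, ?_, rfl⟩
      rw [hTf, Finset.mem_filter, Finset.mem_Icc]
      refine ⟨⟨?_, ?_⟩, x, hx1, hx2, hbig, rfl⟩
      · apply Int.floor_le_floor
        exact div_le_div_of_nonneg_right (by linarith) hδ0.le
      · apply Int.floor_le_floor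
        exact div_le_div_of_nonneg_right (by linarith) hδ0.le

end Pool.Agent.Q39.RD
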