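import Pool.Agent.Q39.RD.Main

/-!
# Record prime gaps around vectors of dilates: the dimension of the exceptional vectors
-/

set_option autoImplicit false

open Finset Filter MeasureTheory

namespace Pool.Agent.Q39.RD

open Pool.Agent.H469R2.NK (e norm_e e_add conj_e)
open Pool.Agent.W147.PS (ff)

variable {r : ℕ}

/-- at least `M ^ (1 - δ)` of the indices `n` in `(M, 4 M]` are good -/
def Many (κ δ : ℝ) (x : ℕ → Fin r → ℝ) : Prop :=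
  ∀ᶠ M : ℝ in atTop, ∃ s : Finset ℕ, M ^ (1 - δ) ≤ (s.card : ℝ) ∧
    ∀ n ∈ s, M < n ∧ (n : ℝ) ≤ 4 * M ∧ ∀ j, ∀ q : ℕ, q.Prime → κ * ff M < |(q : ℝ) - x n j|

open Classical in
theorem many_of_not_bad (hr : 1 ≤ r) (η ε δ : ℝ) (hη : 0 < η) (hη1 : η ≤ 1) (hηε : η ≤ ε)
    (hηδ : 2 * η ≤ δ) :
    ∃ κ : ℝ, 0 < κ ∧ ∀ (a b : ℕ → Fin r → ℝ) (α : Fin r → ℝ) (A₀ : ℝ), (∀ j, |α j| ≤ A₀) →
      (∀ᶠ n : ℕ in atTop, ∀ j, (n : ℝ) ^ ε ≤ α j * a n j + b n j) →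
      (∃ i1 : ℕ, ∀ i : ℕ, i1 ≤ i → α ∉ Bd a b η A₀ i) →
      Many κ δ (fun n j => α j * a n j + b n j) := by
  obtain ⟨κ, hκ, hcrit⟩ := crit_many r hr η hη hη1
  refine ⟨κ, hκ, fun a b α A₀ hA₀ hpos hbad => ?_⟩
  obtain ⟨j₁, hj₁⟩ := hbad
  obtain ⟨n₁, hn₁⟩ := eventually_atTop.mp hpos
  have hε : 0 < ε := by linarith
  unfold Many
  filter_upwards [hcrit, eventually_ge_atTop (1 : ℝ), eventually_ge_atTop ((2 : ℝ) ^ j₁),
    eventually_ge_atTop (n₁ : ℝ)] with M hM hM1 hMj hMn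
  have hM0 : 0 < M := by linarith
  -- choose the power of two
  obtain ⟨j, hjM, hjM2⟩ : ∃ j : ℕ, M ≤ (2 : ℝ) ^ j ∧ (2 : ℝ) ^ j ≤ 2 * M := by
    obtain ⟨i, hi1, hi2⟩ := exists_nat_pow_near hM1 (by norm_num : (1 : ℝ) < 2)
    refine ⟨i + 1, hi2.le, ?_⟩
    rw [pow_succ]
    linarith
  have hj : j₁ ≤ j := by
    have h1 : (2 : ℝ) ^ j₁ ≤ 2 ^ j := hMj.trans hjM
    exact (pow_le_pow_iff_right₀ (by norm_num)).mp h1
  have hnb := hj₁ j hj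
  set N : ℕ := 2 ^ j with hN
  have hNc : (N : ℝ) = 2 ^ j := by rw [hN]; push_cast; ring
  have hN1 : 1 ≤ N := Nat.one_le_two_pow
  have hNr : (1 : ℝ) ≤ N := by exact_mod_cast hN1
  have hN0 : (0 : ℝ) < N := by linarith
  have hMN : M ≤ N := by rw [hNc]; exact hjM
  have hNM : (N : ℝ) ≤ 2 * M := by rw [hNc]; exact hjM2
  have hcard : ((Finset.Ioc N (2 * N)).card : ℝ) = N := by
    rw [Nat.card_Ioc]
    congr 1
    omega
  have h0 := hM (Finset.Ioc N (2 * N)) (fun n j => α j * a n j + b n j)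
    ⟨N + 1, by rw [Finset.mem_Ioc]; omega⟩ (by
      intro n hn j
      rw [Finset.mem_Ioc] at hn
      have h1 : (N : ℝ) ≤ n := by exact_mod_cast hn.1.le
      have h2 : n₁ ≤ n := by
        have : (n₁ : ℝ) ≤ n := hMn.trans (hMN.trans h1)
        exact_mod_cast this
      calc M ^ η ≤ M ^ ε := Real.rpow_le_rpow_of_exponent_le hM1 hηε
        _ ≤ (n : ℝ) ^ ε := Real.rpow_le_rpow hM0.le (hMN.trans h1) hε.le
        _ ≤ _ := hn₁ n h2 j) (by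
      intro q hq hqX h hh hhX
      by_contra hcon
      push Not at hcon
      apply hnb
      refine ⟨hA₀, q, hq, ?_, h, hh, fun j => ?_, ?_⟩
      · rw [← hNc]
        exact hqX.trans (Real.rpow_le_rpow hM0.le hMN hη.le)
      · rw [← hNc]
        exact (hhX j).trans (Real.rpow_le_rpow hM0.le hMN hη.le)
      · rw [← hNc, sub_eq_add_neg, Real.rpow_add hN0, Real.rpow_one]
        rw [hcard] at hcon
        refine le_trans ?_ hcon.le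
        apply mul_le_mul_of_nonneg_left _ hN0.le
        exact Real.rpow_le_rpow_of_nonpos hM0 hMN (by linarith))
  refine ⟨_, le_trans ?_ h0, ?_⟩
  · rw [hcard]
    calc M ^ (1 - δ) ≤ M ^ (1 - 2 * η) := Real.rpow_le_rpow_of_exponent_le hM1 (by linarith)
      _ = M * M ^ (-(2 * η)) := by rw [sub_eq_add_neg, Real.rpow_add hM0, Real.rpow_one]
      _ ≤ N * M ^ (-(2 * η)) := mul_le_mul_of_nonneg_right hMN (by positivity)
  · intro n hn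
    rw [Finset.mem_filter, Finset.mem_Ioc] at hn
    obtain ⟨⟨hn1, hn2⟩, hn3⟩ := hn
    have e1 : (N : ℝ) < n := by exact_mod_cast hn1
    have e2 : (n : ℝ) ≤ 2 * N := by exact_mod_cast hn2
    exact ⟨by linarith, by linarith, hn3⟩

/-- the dimension, with `δ` -/
theorem main_delta (hr : 1 ≤ r) (ρ c ε δ : ℝ) (hρ : 0 ≤ ρ) (hρ1 : ρ ≤ 1) (hρc : ρ ≤ c) (hc : 0 < c)
    (hε : 0 < ε) (hδ : 0 < δ) :
    ∃ κ : ℝ, 0 < κ ∧ ∀ (a b : ℕ → Fin r → ℝ) (n₀ : ℕ),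
      (∀ n, n₀ ≤ n → ∀ j, (n : ℝ) ^ (ρ - 1) ≤ a (n + 1) j - a n j) →
      (∀ n, n₀ ≤ n → ∀ j, |a n j| ≤ (n : ℝ) ^ c) →
      dimH {α : Fin r → ℝ | (∀ᶠ n : ℕ in atTop, ∀ j, (n : ℝ) ^ ε ≤ α j * a n j + b n j) ∧
        ¬ Many κ δ (fun n j => α j * a n j + b n j)} ≤ ENNReal.ofReal (r - ρ / c + δ) := by
  set η : ℝ := min (min (c * δ / (r + 15)) (δ / 2)) (min ε 1) with hη
  have hη0 : 0 < η := lt_min (lt_min (by positivity) (by positivity)) (lt_min hε one_pos)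
  have hη1 : η ≤ c * δ / (r + 15) := (min_le_left _ _).trans (min_le_left _ _)
  have hη2 : η ≤ δ / 2 := (min_le_left _ _).trans (min_le_right _ _)
  have hη3 : η ≤ ε := (min_le_right _ _).trans (min_le_left _ _)
  have hη4 : η ≤ 1 := (min_le_right _ _).trans (min_le_right _ _)
  obtain ⟨κ, hκ, h⟩ := many_of_not_bad (r := r) hr η ε δ hη0 hη4 hη3 (by linarith)
  refine ⟨κ, hκ, fun a b n₀ ha hac => ?_⟩
  have hsub : {α : Fin r → ℝ | (∀ᶠ n : ℕ in atTop, ∀ j, (n : ℝ) ^ ε ≤ α j * a n j + b n j) ∧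
        ¬ Many κ δ (fun n j => α j * a n j + b n j)} ⊆
      ⋃ A₀ : ℕ, {α : Fin r → ℝ | ∀ i1 : ℕ, ∃ i : ℕ, i1 ≤ i ∧ α ∈ Bd a b η A₀ i} := by
    rintro α ⟨h1, h2⟩
    rw [Set.mem_iUnion]
    obtain ⟨A₀, hA₀⟩ : ∃ A₀ : ℕ, ∀ j, |α j| ≤ A₀ := by
      obtain ⟨A₀, hA₀⟩ := exists_nat_ge (∑ j, |α j|)
      exact ⟨A₀, fun j => (Finset.single_le_sum (f := fun j => |α j|) (fun j _ => abs_nonneg _)
        (Finset.mem_univ j)).trans hA₀⟩
    refine ⟨A₀, ?_⟩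
    simp only [Set.mem_ofPred_eq]
    by_contra hcon
    push Not at hcon
    obtain ⟨i1, hi1⟩ := hcon
    exact h2 (h a b α A₀ hA₀ h1 ⟨i1, hi1⟩)
  refine (dimH_mono hsub).trans ?_
  rw [dimH_iUnion]
  refine iSup_le fun A₀ => ?_
  have hr1 : (1 : ℝ) ≤ r := by exact_mod_cast hr
  have hρc1 : ρ / c ≤ 1 := by rw [div_le_one hc]; exact hρc
  have hρc0 : 0 ≤ ρ / c := by positivity
  refine dim_limsup _ _ _ (Bd a b η A₀) (show (0 : ℝ) < c + 5 * η by linarith) (by linarith) ?_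
    (cover hr a b ρ c η A₀ hρ hρ1 hη0 hc (by positivity) n₀ ha hac)
  have h5 : η * (r + 15) ≤ c * δ := by
    rwa [le_div_iff₀ (by positivity)] at hη1
  have h6 : (c + 5 * η) * (ρ / c) = ρ + 5 * (η * (ρ / c)) := by
    field_simp
  have h7 : η * (ρ / c) ≤ η := mul_le_of_le_one_right hη0.le hρc1
  have h8 : 0 < η * δ := by positivity
  nlinarith

/-- the dimension -/
theorem main_dim (hr : 1 ≤ r) (ρ c : ℝ) (hρ : 0 ≤ ρ) (hρ1 : ρ ≤ 1) (hρc : ρ ≤ c) (hc : 0 < c)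
    (a b : ℕ → Fin r → ℝ)
    (ha : ∀ᶠ n : ℕ in atTop, ∀ j, (n : ℝ) ^ (ρ - 1) ≤ a (n + 1) j - a n j)
    (hac : ∀ c' : ℝ, c < c' → ∀ᶠ n : ℕ in atTop, ∀ j, |a n j| ≤ (n : ℝ) ^ c') :
    dimH {α : Fin r → ℝ | (∃ ε : ℝ, 0 < ε ∧ ∀ᶠ n : ℕ in atTop, ∀ j, (n : ℝ) ^ ε ≤ α j * a n j + b n j) ∧
        ¬ ∀ δ : ℝ, 0 < δ → ∃ κ : ℝ, 0 < κ ∧ Many κ δ (fun n j => α j * a n j + b n j)} ≤
      ENNReal.ofReal (r - ρ / c) := by
  have hr1 : (1 : ℝ) ≤ r := by exact_mod_cast hr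
  -- the bound for each `δ`
  have key : ∀ k : ℕ, ∀ l : ℕ,
      dimH {α : Fin r → ℝ | (∀ᶠ n : ℕ in atTop, ∀ j, (n : ℝ) ^ (1 / (l + 1 : ℝ)) ≤ α j * a n j + b n j) ∧
        ¬ ∃ κ : ℝ, 0 < κ ∧ Many κ (1 / (k + 1 : ℝ)) (fun n j => α j * a n j + b n j)} ≤
      ENNReal.ofReal (r - ρ / c) := by
    intro k l
    have h1 : ∀ m : ℕ, dimH {α : Fin r → ℝ |
        (∀ᶠ n : ℕ in atTop, ∀ j, (n : ℝ) ^ (1 / (l + 1 : ℝ)) ≤ α j * a n j + b n j) ∧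
        ¬ ∃ κ : ℝ, 0 < κ ∧ Many κ (1 / (k + 1 : ℝ)) (fun n j => α j * a n j + b n j)} ≤
        ENNReal.ofReal (r - ρ / (c + 1 / (m + 1 : ℝ)) + 1 / ((k + m : ℕ) + 1 : ℝ)) := by
      intro m
      have hc' : c < c + 1 / (m + 1 : ℝ) := by
        have : (0 : ℝ) < 1 / (m + 1 : ℝ) := by positivity
        linarith
      obtain ⟨κ, hκ, h2⟩ := main_delta (r := r) hr ρ (c + 1 / (m + 1 : ℝ)) (1 / (l + 1 : ℝ))
        (1 / ((k + m : ℕ) + 1 : ℝ)) hρ hρ1 (by linarith) (by linarith) (by positivity) (by positivity)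
      obtain ⟨n₀, hn₀⟩ := eventually_atTop.mp (ha.and (hac _ hc'))
      have h3 := h2 a b n₀ (fun n hn => (hn₀ n hn).1) (fun n hn => (hn₀ n hn).2)
      refine le_trans (dimH_mono ?_) h3
      rintro α ⟨g1, g2⟩
      refine ⟨g1, fun g3 => g2 ⟨κ, hκ, ?_⟩⟩
      unfold Many at g3 ⊢
      filter_upwards [g3, eventually_ge_atTop (1 : ℝ)] with M ⟨s, hs1, hs2⟩ hM1
      refine ⟨s, le_trans (Real.rpow_le_rpow_of_exponent_le hM1 ?_) hs1, hs2⟩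
      have : (1 : ℝ) / ((k + m : ℕ) + 1 : ℝ) ≤ 1 / (k + 1 : ℝ) := by
        apply one_div_le_one_div_of_le (by positivity)
        push_cast
        have : (0 : ℝ) ≤ m := Nat.cast_nonneg m
        linarith
      linarith
    have hlim : Tendsto (fun m : ℕ => ENNReal.ofReal
        (r - ρ / (c + 1 / (m + 1 : ℝ)) + 1 / ((k + m : ℕ) + 1 : ℝ))) atTop
        (nhds (ENNReal.ofReal (r - ρ / c))) := by
      apply ENNReal.tendsto_ofReal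
      have t1 : Tendsto (fun m : ℕ => (1 : ℝ) / (m + 1 : ℝ)) atTop (nhds 0) :=
        tendsto_one_div_add_atTop_nhds_zero_nat
      have t2 : Tendsto (fun m : ℕ => c + (1 : ℝ) / (m + 1 : ℝ)) atTop (nhds c) := by
        have := t1.const_add c
        rwa [add_zero] at this
      have t3 : Tendsto (fun m : ℕ => ρ / (c + (1 : ℝ) / (m + 1 : ℝ))) atTop (nhds (ρ / c)) :=
        tendsto_const_nhds.div t2 hc.ne'
      have t4 : Tendsto (fun m : ℕ => (1 : ℝ) / (((k + m : ℕ) : ℝ) + 1)) atTop (nhds 0) := by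
        have := t1.comp (tendsto_add_atTop_nat k)
        refine this.congr fun m => ?_
        simp only [Function.comp_apply]
        rw [add_comm m k]
      have t5 := (t3.const_sub (r : ℝ)).add t4
      rwa [add_zero] at t5
    exact ge_of_tendsto' hlim h1
  have hsub : {α : Fin r → ℝ | (∃ ε : ℝ, 0 < ε ∧ ∀ᶠ n : ℕ in atTop, ∀ j,
        (n : ℝ) ^ ε ≤ α j * a n j + b n j) ∧
        ¬ ∀ δ : ℝ, 0 < δ → ∃ κ : ℝ, 0 < κ ∧ Many κ δ (fun n j => α j * a n j + b n j)} ⊆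
      ⋃ k : ℕ, ⋃ l : ℕ, {α : Fin r → ℝ | (∀ᶠ n : ℕ in atTop, ∀ j,
        (n : ℝ) ^ (1 / (l + 1 : ℝ)) ≤ α j * a n j + b n j) ∧
        ¬ ∃ κ : ℝ, 0 < κ ∧ Many κ (1 / (k + 1 : ℝ)) (fun n j => α j * a n j + b n j)} := by
    rintro α ⟨⟨ε, hε, h1⟩, h2⟩
    push Not at h2
    obtain ⟨δ, hδ, h3⟩ := h2
    obtain ⟨k, hk⟩ := exists_nat_one_div_lt hδ
    obtain ⟨l, hl⟩ := exists_nat_one_div_lt hε
    rw [Set.mem_iUnion]
    refine ⟨k, ?_⟩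
    rw [Set.mem_iUnion]
    refine ⟨l, ?_, ?_⟩
    · filter_upwards [h1, eventually_ge_atTop 1] with n hn hn1 j
      exact (Real.rpow_le_rpow_of_exponent_le (by exact_mod_cast hn1) hl.le).trans (hn j)
    · rintro ⟨κ, hκ, h4⟩
      apply h3 κ hκ
      unfold Many at h4 ⊢
      filter_upwards [h4, eventually_ge_atTop (1 : ℝ)] with M ⟨s, hs1, hs2⟩ hM1
      exact ⟨s, le_trans (Real.rpow_le_rpow_of_exponent_le hM1 (by linarith)) hs1, hs2⟩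
  refine (dimH_mono hsub).trans ?_
  rw [dimH_iUnion]
  refine iSup_le fun k => ?_
  rw [dimH_iUnion]
  exact iSup_le fun l => key k l

end Pool.Agent.Q39.RD
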