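import Pool.Agent.Q39.RD.Vec
import Pool.Agent.TH668.Met.Gen
import Pool.Agent.W928.MW.Dim

/-!
# Record prime gaps around vectors of dilates: the dimension of the exceptional vectors
-/

set_option autoImplicit false

open Finset Filter MeasureTheory

namespace Pool.Agent.Q39.RD

open Pool.Agent.H469R2.NK (e norm_e e_add conj_e)
open Pool.Agent.W147.PS (ff)
open Pool.Agent.W928.MW (ev_pow ev_log)

variable {r : ℕ}

/-- bad vectors at the scale `2 ^ i` -/
def Bd (a b : ℕ → Fin r → ℝ) (η A₀ : ℝ) (i : ℕ) : Set (Fin r → ℝ) :=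
  {α | (∀ j, |α j| ≤ A₀) ∧ ∃ q : ℕ, 1 ≤ q ∧ (q : ℝ) ≤ ((2 : ℝ) ^ i) ^ η ∧ ∃ h : Fin r → ℤ, h ≠ 0 ∧
    (∀ j, |(h j : ℝ)| ≤ ((2 : ℝ) ^ i) ^ η) ∧ ((2 : ℝ) ^ i) ^ (1 - 2 * η) ≤ ‖SS a b (2 ^ i) q h α‖}

open Classical in
theorem cover (hr : 1 ≤ r) (a b : ℕ → Fin r → ℝ) (ρ c η A₀ : ℝ) (hρ : 0 ≤ ρ) (hρ1 : ρ ≤ 1)
    (hη : 0 < η) (hc : 0 < c) (hA₀ : 0 ≤ A₀) (n₀ : ℕ)
    (ha : ∀ n, n₀ ≤ n → ∀ j, (n : ℝ) ^ (ρ - 1) ≤ a (n + 1) j - a n j)
    (hac : ∀ n, n₀ ≤ n → ∀ j, |a n j| ≤ (n : ℝ) ^ c) :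
    ∃ i0 : ℕ, ∀ i : ℕ, i0 ≤ i → ∃ S : Finset (Set (Fin r → ℝ)),
      (S.card : ℝ) ≤ ((2 : ℝ) ^ i) ^ ((c + 5 * η) * r + (-ρ) + η * (r + 9)) ∧
      (∀ U ∈ S, Metric.ediam U ≤ ENNReal.ofReal (((2 : ℝ) ^ i) ^ (-(c + 5 * η)))) ∧
      Bd a b η A₀ i ⊆ ⋃ U ∈ S, U := by
  have hpi := Real.pi_pos
  obtain ⟨i1, h1⟩ := ev_pow η hη (4 * Real.pi * r * 2 ^ c + (2 * (A₀ + 1) + 4) +
    (4 * 3 ^ r * (2 * A₀ + 2) ^ (r - 1)) + 1)
  obtain ⟨i2, h2⟩ := ev_log η hη 1
  refine ⟨i1 + i2 + n₀ + 1, fun i hi => ?_⟩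
  have g1 := h1 i (by omega)
  have g2 := h2 i (by omega)
  set X : ℝ := (2 : ℝ) ^ i with hX
  have hX2 : (2 : ℝ) ≤ X := by
    rw [hX]
    calc (2 : ℝ) = 2 ^ 1 := (pow_one _).symm
      _ ≤ 2 ^ i := pow_le_pow_right₀ (by norm_num) (by omega)
  have hX1 : (1 : ℝ) ≤ X := by linarith
  have hX0 : (0 : ℝ) < X := by linarith
  have hNX : (((2 ^ i : ℕ) : ℕ) : ℝ) = X := by push_cast; rfl
  set P : ℝ := X ^ η with hP
  set Y : ℝ := X ^ c with hY
  set R : ℝ := X ^ (-ρ) with hR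
  have hP1 : 1 ≤ P := Real.one_le_rpow hX1 hη.le
  have hP0 : 0 < P := by linarith
  have hY0 : 0 < Y := by positivity
  have hR0 : 0 < R := by positivity
  have t1 : 0 ≤ 4 * Real.pi * r * (2 : ℝ) ^ c := by positivity
  have t2 : 0 ≤ 4 * (3 : ℝ) ^ r * (2 * A₀ + 2) ^ (r - 1) := by positivity
  have k1 : 4 * Real.pi * r * (2 : ℝ) ^ c ≤ P := by linarith
  have k2 : 2 * (A₀ + 1) + 4 ≤ P := by linarith
  have k3 : 4 * (3 : ℝ) ^ r * (2 * A₀ + 2) ^ (r - 1) ≤ P := by linarith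
  have k4 : 1 + Real.log X ≤ P := by
    have := Real.log_nonneg hX1
    linarith
  -- powers
  have hPk : ∀ k : ℕ, X ^ (η * k) = P ^ k := by
    intro k
    rw [hP, ← Real.rpow_natCast, ← Real.rpow_mul hX0.le]
  have hW : X ^ (c + 5 * η) = Y * P ^ 5 := by
    rw [Real.rpow_add hX0, ← hPk 5]
    congr 2
    push_cast
    ring
  set W : ℝ := Y * P ^ 5 with hWdef
  have hW0 : 0 < W := by positivity
  have hW1 : 1 < W := by
    rw [← hW]
    exact Real.one_lt_rpow (by linarith) (by linarith)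
  have hδ : X ^ (-(c + 5 * η)) = W⁻¹ := by
    rw [Real.rpow_neg hX0.le, hW]
  rw [hδ]
  set δ : ℝ := W⁻¹ with hδdef
  have hδ0 : 0 < δ := by positivity
  have hδ1 : δ < 1 := inv_lt_one_of_one_lt₀ hW1
  have hμ : X ^ (1 - 2 * η) = X / P ^ 2 := by
    rw [Real.rpow_sub hX0, Real.rpow_one, ← hPk 2]
    congr 2
    push_cast
    ring
  have hμ0 : 0 < X / P ^ 2 := by positivity
  set d : ℝ := (2 * X) ^ (ρ - 1) with hd
  have hd0 : 0 < d := by positivity
  have hdinv : d⁻¹ ≤ 2 * (X * R) := by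
    rw [hd, ← Real.rpow_neg (by positivity), Real.mul_rpow (by norm_num) hX0.le]
    have e1 : X ^ (-(ρ - 1)) = X * R := by
      rw [hR, show (-(ρ - 1) : ℝ) = 1 + (-ρ) by ring, Real.rpow_add hX0, Real.rpow_one]
    rw [e1]
    apply mul_le_mul_of_nonneg_right _ (by positivity)
    calc (2 : ℝ) ^ (-(ρ - 1)) ≤ (2 : ℝ) ^ (1 : ℝ) :=
          Real.rpow_le_rpow_of_exponent_le (by norm_num) (by linarith)
      _ = 2 := Real.rpow_one _
  have hn₀N : n₀ ≤ 2 ^ i := by
    have : i < 2 ^ i := Nat.lt_two_pow_self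
    omega
  have hN1 : 1 ≤ 2 ^ i := Nat.one_le_two_pow
  -- the cover
  set Q : Finset ℕ := Finset.Icc 1 ⌊P⌋₊ with hQ
  set Hs : Finset (Fin r → ℤ) :=
    (Fintype.piFinset fun _ : Fin r => Finset.Icc (-⌊P⌋) ⌊P⌋).filter fun h => h ≠ 0 with hHs
  set Tf : ℕ × (Fin r → ℤ) → Finset (Fin r → ℤ) := fun p =>
    (Fintype.piFinset fun _ : Fin r => Finset.Icc ⌊-A₀ / δ⌋ ⌊A₀ / δ⌋).filter
      fun m => ∃ α : Fin r → ℝ, (∀ j, |α j| ≤ A₀) ∧ X / P ^ 2 ≤ ‖SS a b (2 ^ i) p.1 p.2 α‖ ∧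
        α ∈ cell δ m with hTf
  refine ⟨(Q ×ˢ Hs).biUnion fun p => (Tf p).image (cell δ), ?_, ?_, ?_⟩
  · -- the number
    have hone : ∀ p ∈ Q ×ˢ Hs, ((((Tf p).image (cell δ)).card : ℕ) : ℝ) ≤
        4 * (2 * A₀ + 2) ^ (r - 1) * (R * P ^ 7 * W ^ r) := by
      rintro ⟨q, h⟩ hp
      rw [Finset.mem_product, hQ, hHs, Finset.mem_filter, Finset.mem_Icc,
        Fintype.mem_piFinset] at hp
      simp only at hp
      obtain ⟨⟨hq1, hq2⟩, hh1, hh2⟩ := hp
      have hqP : (q : ℝ) ≤ P := (Nat.le_floor_iff hP0.le).1 hq2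
      have hhP : ∀ j, |(h j : ℝ)| ≤ P := by
        intro j
        have h3 := Finset.mem_Icc.1 (hh1 j)
        have h4 : (h j : ℝ) ≤ P := Int.le_floor.1 h3.2
        have h5 : ((-h j : ℤ) : ℝ) ≤ P := Int.le_floor.1 (by omega)
        push_cast at h5
        rw [abs_le]
        constructor <;> linarith
      obtain ⟨j₀, hj₀⟩ := Function.ne_iff.1 hh2
      have hj₀' : h j₀ ≠ 0 := hj₀
      have hq0 : (0 : ℝ) < q := by exact_mod_cast hq1
      have h6 := cells a b (2 ^ i) q hq1 h j₀ hj₀' P ((2 * X) ^ c) A₀ δ (X / P ^ 2) d hP0.le hδ0 hδ1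
        hμ0 hd0 hA₀ hhP (by
          intro n hn j
          rw [Finset.mem_Ioc] at hn
          refine (hac n (by omega) j).trans ?_
          apply Real.rpow_le_rpow (by positivity) _ hc.le
          have h7 : ((n : ℕ) : ℝ) ≤ ((2 * 2 ^ i : ℕ) : ℝ) := by exact_mod_cast hn.2
          refine h7.trans (le_of_eq ?_)
          push_cast
          rfl) (by
          intro n m hn hm hnm
          rw [Finset.mem_Ioc] at hn hm
          obtain ⟨k, rfl⟩ := Nat.exists_eq_add_of_le hnm.le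
          have h7 := Pool.Agent.TH668.Met.sep (fun n => a n j₀) ρ hρ1 n₀ (2 ^ i) hN1 hn₀N
            (fun n hn => ha n hn j₀) n k (by omega) (by omega)
          rw [hNX] at h7
          rw [Nat.add_sub_cancel_left]
          exact h7) (by
          rw [hNX, Real.mul_rpow (by norm_num) hX0.le, ← hY, hδdef, hWdef]
          have e1 : X * (2 * Real.pi * (r * (P * ((Y * P ^ 5)⁻¹ * (2 ^ c * Y))))) =
              (4 * Real.pi * r * 2 ^ c) * (X / P ^ 4) / 2 := by
            field_simp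
            ring
          rw [e1]
          apply div_le_div_of_nonneg_right _ (by norm_num)
          calc (4 * Real.pi * r * 2 ^ c) * (X / P ^ 4) ≤ P * (X / P ^ 4) :=
                mul_le_mul_of_nonneg_right k1 (by positivity)
            _ = X / P ^ 3 := by field_simp
            _ ≤ X / P ^ 2 := by
                apply div_le_div_of_nonneg_left hX0.le (by positivity)
                exact pow_le_pow_right₀ hP1 (by norm_num))
      refine le_trans ?_ (h6.trans ?_)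
      · exact_mod_cast Finset.card_image_le
      · rw [hNX]
        have f1 : 1 / (1 / (q : ℝ) * d) ≤ 2 * P * (X * R) := by
          have : 1 / (1 / (q : ℝ) * d) = q * d⁻¹ := by
            field_simp
          rw [this]
          calc (q : ℝ) * d⁻¹ ≤ P * (2 * (X * R)) := mul_le_mul hqP hdinv (by positivity) hP0.le
            _ = _ := by ring
        have f2 : 1 ≤ X * R := by
          rw [hR]
          have : X * X ^ (-ρ) = X ^ (1 - ρ) := by
            rw [sub_eq_add_neg, Real.rpow_add hX0, Real.rpow_one]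
          rw [this]
          exact Real.one_le_rpow hX1 (by linarith)
        have hlog : 0 ≤ Real.log X := Real.log_nonneg hX1
        have f3 : 2 * (A₀ + 1) + 2 * (1 / (1 / (q : ℝ) * d) * (1 + Real.log X)) ≤
            X * R * P ^ 3 := by
          have f4 : 1 / (1 / (q : ℝ) * d) * (1 + Real.log X) ≤ 2 * P * (X * R) * P :=
            mul_le_mul f1 k4 (by positivity) (by positivity)
          have f5 : 2 * (A₀ + 1) ≤ 2 * (A₀ + 1) * (P ^ 2 * (X * R)) :=
            le_mul_of_one_le_right (by positivity)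
              (one_le_mul_of_one_le_of_one_le (one_le_pow₀ hP1) f2)
          have f6 : (2 * (A₀ + 1) + 4) * (P ^ 2 * (X * R)) ≤ P * (P ^ 2 * (X * R)) :=
            mul_le_mul_of_nonneg_right k2 (by positivity)
          have f6' : X * R * P ^ 3 = P * (P ^ 2 * (X * R)) := by ring
          have f6'' : (2 * (A₀ + 1) + 4) * (P ^ 2 * (X * R)) =
            2 * (A₀ + 1) * (P ^ 2 * (X * R)) + 2 * (2 * P * (X * R) * P) := by ring
          rw [f6']
          linarith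
        have f7 : X * (2 * (A₀ + 1) + 2 * (1 / (1 / (q : ℝ) * d) * (1 + Real.log X))) /
            (X / P ^ 2 / 2) ^ 2 / δ ≤ 4 * (R * P ^ 7 * W) := by
          have f8 : 4 * (R * P ^ 7 * W) = X * (X * R * P ^ 3) / (X / P ^ 2 / 2) ^ 2 / δ := by
            rw [hδdef]
            field_simp
            ring
          rw [f8]
          gcongr
        have f9 : 2 * (A₀ / δ) + 2 ≤ (2 * A₀ + 2) * W := by
          rw [hδdef, div_inv_eq_mul]
          have : (2 * A₀ + 2) * W = 2 * (A₀ * W) + 2 * W := by ring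
          rw [this]
          linarith
        have f10 : (2 * (A₀ / δ) + 2) ^ (r - 1) ≤ (2 * A₀ + 2) ^ (r - 1) * W ^ (r - 1) := by
          rw [← mul_pow]
          exact pow_le_pow_left₀ (by positivity) f9 _
        calc _ ≤ 4 * (R * P ^ 7 * W) * ((2 * A₀ + 2) ^ (r - 1) * W ^ (r - 1)) :=
              mul_le_mul f7 f10 (by positivity) (by positivity)
          _ = 4 * (2 * A₀ + 2) ^ (r - 1) * (R * P ^ 7 * (W * W ^ (r - 1))) := by ring
          _ = _ := by
              congr 3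
              rw [← pow_succ']
              congr 1
              omega
    have hQc : (Q.card : ℝ) ≤ P := by
      rw [hQ, Nat.card_Icc, Nat.add_sub_cancel]
      exact Nat.floor_le hP0.le
    have hHc : (Hs.card : ℝ) ≤ 3 ^ r * P ^ r := by
      have h3 : Hs.card ≤ (2 * ⌊P⌋₊ + 1) ^ r := by
        rw [hHs]
        refine (Finset.card_filter_le _ _).trans (le_of_eq ?_)
        rw [Fintype.card_piFinset, Finset.prod_const, Finset.card_univ, Fintype.card_fin, Int.card_Icc]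
        congr 1
        have : (⌊P⌋₊ : ℤ) = ⌊P⌋ := Int.natCast_floor_eq_floor hP0.le
        omega
      have h4 : (Hs.card : ℝ) ≤ (2 * (⌊P⌋₊ : ℝ) + 1) ^ r := by exact_mod_cast h3
      refine h4.trans ?_
      rw [← mul_pow]
      apply pow_le_pow_left₀ (by positivity)
      have := Nat.floor_le hP0.le
      linarith
    have htot : ((2 : ℝ) ^ i) ^ ((c + 5 * η) * r + (-ρ) + η * (r + 9)) = W ^ r * R * P ^ (r + 9) := by
      rw [← hX, Real.rpow_add hX0, Real.rpow_add hX0, Real.rpow_mul hX0.le, hW, Real.rpow_natCast]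
      congr 1
      rw [← hPk (r + 9)]
      congr 1
      push_cast
      ring
    calc ((((Q ×ˢ Hs).biUnion fun p => (Tf p).image (cell δ)).card : ℕ) : ℝ)
        ≤ ((∑ p ∈ Q ×ˢ Hs, ((Tf p).image (cell δ)).card : ℕ) : ℝ) := by
          exact_mod_cast Finset.card_biUnion_le
      _ = ∑ p ∈ Q ×ˢ Hs, ((((Tf p).image (cell δ)).card : ℕ) : ℝ) := by push_cast; rfl
      _ ≤ ∑ p ∈ Q ×ˢ Hs, 4 * (2 * A₀ + 2) ^ (r - 1) * (R * P ^ 7 * W ^ r) :=
          Finset.sum_le_sum hone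
      _ = (Q.card : ℝ) * Hs.card * (4 * (2 * A₀ + 2) ^ (r - 1) * (R * P ^ 7 * W ^ r)) := by
          rw [Finset.sum_const, Finset.card_product, nsmul_eq_mul]
          push_cast
          ring
      _ ≤ P * (3 ^ r * P ^ r) * (4 * (2 * A₀ + 2) ^ (r - 1) * (R * P ^ 7 * W ^ r)) := by
          gcongr
      _ = (4 * 3 ^ r * (2 * A₀ + 2) ^ (r - 1)) * (W ^ r * R * P ^ (r + 8)) := by
          rw [pow_add P r 8]
          ring
      _ ≤ P * (W ^ r * R * P ^ (r + 8)) := mul_le_mul_of_nonneg_right k3 (by positivity)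
      _ = _ := by
          rw [htot, pow_succ P (r + 8)]
          ring
  · intro U hU
    rw [Finset.mem_biUnion] at hU
    obtain ⟨p, _, hU⟩ := hU
    rw [Finset.mem_image] at hU
    obtain ⟨m, _, rfl⟩ := hU
    exact ediam_cell hδ0 m
  · rintro α ⟨hα, q, hq1, hq2, h, hh0, hh, hbig⟩
    rw [← hX] at hq2 hh hbig
    rw [hμ] at hbig
    rw [Set.mem_iUnion₂]
    refine ⟨cell δ (fun j => ⌊α j / δ⌋), ?_, fun j => rfl⟩
    rw [Finset.mem_biUnion]
    refine ⟨(q, h), ?_, ?_⟩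
    · rw [Finset.mem_product, hQ, hHs, Finset.mem_filter, Finset.mem_Icc, Fintype.mem_piFinset]
      refine ⟨⟨hq1, Nat.le_floor hq2⟩, fun j => ?_, hh0⟩
      rw [Finset.mem_Icc]
      have h3 := abs_le.1 (hh j)
      have h4 : h j ≤ ⌊P⌋ := Int.le_floor.2 h3.2
      have h5 : -h j ≤ ⌊P⌋ := Int.le_floor.2 (by push_cast; linarith)
      exact ⟨by change -⌊P⌋ ≤ h j; omega, h4⟩
    · rw [Finset.mem_image]
      refine ⟨fun j => ⌊α j / δ⌋, ?_, rfl⟩
      rw [hTf, Finset.mem_filter, Fintype.mem_piFinset]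
      refine ⟨fun j => ?_, α, hα, hbig, fun j => rfl⟩
      rw [Finset.mem_Icc]
      have h3 := abs_le.1 (hα j)
      constructor
      · apply Int.floor_le_floor
        exact div_le_div_of_nonneg_right h3.1 hδ0.le
      · apply Int.floor_le_floor
        exact div_le_div_of_nonneg_right h3.2 hδ0.le

end Pool.Agent.Q39.RD
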