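import Pool.Agent.TH668.Met.Leb

/-!
# Mean squares of exponential sums over dilates of separated sequences, without loss
-/

set_option autoImplicit false

open Finset MeasureTheory

namespace Pool.Agent.Q39.RD

open Pool.Agent.TH668.Met
open Pool.Agent.H469R2.NK (e norm_e e_add conj_e)

lemma int_e (K : ℝ) (hK : 0 ≤ K) (ξ : ℝ) (hξne : ξ ≠ 0) :
    ‖∫ x, e (ξ * x) ∂(volume.restrict (Set.Ioc (-K) K))‖ ≤ |ξ|⁻¹ := by
  have hξ0 : 0 < |ξ| := abs_pos.2 hξne
  set c : ℂ := 2 * Real.pi * ξ * Complex.I with hc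
  have hcn : ‖c‖ = 2 * Real.pi * |ξ| := by
    rw [hc, norm_mul, norm_mul, norm_mul, Complex.norm_I, mul_one, Complex.norm_real,
      Complex.norm_real, Complex.norm_ofNat, Real.norm_eq_abs, Real.norm_eq_abs,
      abs_of_pos Real.pi_pos]
  have hcne : c ≠ 0 := by
    rw [← norm_pos_iff, hcn]
    have := Real.pi_pos
    positivity
  rw [← intervalIntegral.integral_of_le (by linarith)]
  have e1 : ∀ x : ℝ, e (ξ * x) = Complex.exp (c * x) := by
    intro x
    rw [e_eq, hc]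
    congr 1
    ring
  simp_rw [e1]
  rw [integral_exp_mul_complex hcne, norm_div, hcn]
  have h2 : ∀ y : ℝ, ‖Complex.exp (c * y)‖ = 1 := by
    intro y
    rw [← e1, norm_e]
  have h3 : ‖Complex.exp (c * (K : ℝ)) - Complex.exp (c * ((-K : ℝ) : ℂ))‖ ≤ 2 := by
    refine (norm_sub_le _ _).trans ?_
    rw [h2, h2]
    norm_num
  rw [div_le_iff₀ (by have := Real.pi_pos; positivity)]
  refine h3.trans ?_
  have h4 : |ξ|⁻¹ * (2 * Real.pi * |ξ|) = 2 * Real.pi := by field_simp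
  rw [h4]
  have := Real.pi_gt_three
  linarith

lemma half_sum (N : ℕ) (t : Finset ℕ) (g : ℕ → ℕ) (hg : Set.InjOn g t) (h1 : ∀ m ∈ t, 1 ≤ g m)
    (h2 : ∀ m ∈ t, g m < N) (c : ℝ) (hc : 0 ≤ c) :
    ∑ m ∈ t, c / (g m : ℝ) ≤ c * (1 + Real.log N) := by
  have h3 : ∑ m ∈ t, c / (g m : ℝ) = ∑ l ∈ t.image g, c / (l : ℝ) :=
    (sum_image (f := fun l : ℕ => c / (l : ℝ)) hg).symm
  rw [h3]
  have h4 : t.image g ⊆ Ico 1 N := by
    intro l hl
    rw [Finset.mem_image] at hl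
    obtain ⟨m, hm, rfl⟩ := hl
    rw [Finset.mem_Ico]
    exact ⟨h1 m hm, h2 m hm⟩
  calc ∑ l ∈ t.image g, c / (l : ℝ) ≤ ∑ l ∈ Ico 1 N, c / (l : ℝ) :=
        sum_le_sum_of_subset_of_nonneg h4 fun l _ _ => by positivity
    _ = c * ∑ l ∈ Ico 1 N, (1 : ℝ) / l := by
        rw [mul_sum]
        refine sum_congr rfl fun l _ => ?_
        rw [mul_one_div]
    _ ≤ _ := mul_le_mul_of_nonneg_left (Pool.Agent.H469R2.NK.harm_le N) hc

lemma recip (N n : ℕ) (hn : n ∈ Ioc N (2 * N)) (f : ℕ → ℝ) (A c : ℝ) (hc : 0 ≤ c) (h0 : f n ≤ A)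
    (h1 : ∀ m ∈ Ioc N (2 * N), m < n → f m ≤ c / ((n - m : ℕ) : ℝ))
    (h2 : ∀ m ∈ Ioc N (2 * N), n < m → f m ≤ c / ((m - n : ℕ) : ℝ)) :
    ∑ m ∈ Ioc N (2 * N), f m ≤ A + 2 * (c * (1 + Real.log N)) := by
  rw [Finset.mem_Ioc] at hn
  have hs1 : ∑ m ∈ Ioc N (2 * N), f m =
      ∑ m ∈ (Ioc N (2 * N)).filter (· < n), f m +
        ∑ m ∈ (Ioc N (2 * N)).filter (fun m => ¬ m < n), f m :=
    (sum_filter_add_sum_filter_not _ _ _).symm
  have hs2 : ∑ m ∈ (Ioc N (2 * N)).filter (fun m => ¬ m < n), f m =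
      f n + ∑ m ∈ (Ioc N (2 * N)).filter (fun m => n < m), f m := by
    have : (Ioc N (2 * N)).filter (fun m => ¬ m < n) =
        insert n ((Ioc N (2 * N)).filter (fun m => n < m)) := by
      ext m
      simp only [Finset.mem_filter, Finset.mem_insert, Finset.mem_Ioc]
      constructor
      · rintro ⟨h3, h4⟩
        rcases eq_or_ne m n with h | h
        · exact Or.inl h
        · exact Or.inr ⟨h3, by omega⟩
      · rintro (h | ⟨h3, h4⟩)
        · subst h; exact ⟨hn, lt_irrefl _⟩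
        · exact ⟨h3, by omega⟩
    rw [this, sum_insert (by simp)]
  have a1 : ∑ m ∈ (Ioc N (2 * N)).filter (· < n), f m ≤ c * (1 + Real.log N) := by
    refine (sum_le_sum fun m hm => ?_).trans (half_sum N _ (fun m => n - m) ?_ ?_ ?_ c hc)
    · rw [Finset.mem_filter] at hm
      exact h1 m hm.1 hm.2
    · intro x hx y hy hxy
      simp only [Finset.coe_filter, Finset.mem_Ioc, Set.mem_ofPred_eq] at hx hy hxy
      omega
    · intro m hm
      simp only [Finset.mem_filter, Finset.mem_Ioc] at hm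
      omega
    · intro m hm
      simp only [Finset.mem_filter, Finset.mem_Ioc] at hm
      omega
  have a2 : ∑ m ∈ (Ioc N (2 * N)).filter (fun m => n < m), f m ≤ c * (1 + Real.log N) := by
    refine (sum_le_sum fun m hm => ?_).trans (half_sum N _ (fun m => m - n) ?_ ?_ ?_ c hc)
    · rw [Finset.mem_filter] at hm
      exact h2 m hm.1 hm.2
    · intro x hx y hy hxy
      simp only [Finset.coe_filter, Finset.mem_Ioc, Set.mem_ofPred_eq] at hx hy hxy
      omega
    · intro m hm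
      simp only [Finset.mem_filter, Finset.mem_Ioc] at hm
      omega
    · intro m hm
      simp only [Finset.mem_filter, Finset.mem_Ioc] at hm
      omega
  rw [hs1, hs2]
  linarith

/-- mean square over a dyadic block -/
theorem mean_lin (N : ℕ) (x b : ℕ → ℝ) (θ d K : ℝ) (hθ : θ ≠ 0) (hd : 0 < d) (hK : 0 ≤ K)
    (hsep : ∀ n m, n ∈ Ioc N (2 * N) → m ∈ Ioc N (2 * N) → n < m →
      ((m - n : ℕ) : ℝ) * d ≤ x m - x n) :
    ∫ α, ‖∑ n ∈ Ioc N (2 * N), e (θ * (α * x n + b n))‖ ^ 2 ∂(volume.restrict (Set.Ioc (-K) K)) ≤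
      N * (2 * K + 2 * (1 / (|θ| * d) * (1 + Real.log N))) := by
  refine (mean_sq _ _ x b θ).trans ?_
  have hcard : ((Ioc N (2 * N)).card : ℝ) = N := by
    rw [Nat.card_Ioc]
    congr 1
    omega
  have hθ0 : 0 < |θ| := abs_pos.2 hθ
  have h1 : ∀ n ∈ Ioc N (2 * N), ∑ m ∈ Ioc N (2 * N),
      ‖∫ α, e ((θ * (x n - x m)) * α) ∂(volume.restrict (Set.Ioc (-K) K))‖ ≤
        2 * K + 2 * (1 / (|θ| * d) * (1 + Real.log N)) := by
    intro n hn
    have far : ∀ m m' : ℕ, m' ∈ Ioc N (2 * N) → m ∈ Ioc N (2 * N) → m < m' → ∀ y : ℝ,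
        |y| = |θ| * (x m' - x m) →
        ‖∫ α, e (y * α) ∂(volume.restrict (Set.Ioc (-K) K))‖ ≤
          1 / (|θ| * d) / ((m' - m : ℕ) : ℝ) := by
      intro m m' hm' hm hlt y hy
      have h2 := hsep m m' hm hm' hlt
      have h3 : (0 : ℝ) < ((m' - m : ℕ) : ℝ) := by
        have : 0 < m' - m := by omega
        exact_mod_cast this
      have h4 : 0 < |y| := by
        rw [hy]
        have : 0 < ((m' - m : ℕ) : ℝ) * d := by positivity
        have : 0 < x m' - x m := by linarith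
        positivity
      refine (int_e K hK y (abs_pos.1 h4)).trans ?_
      rw [div_div, one_div, inv_le_inv₀ h4 (by positivity), hy, mul_assoc]
      apply mul_le_mul_of_nonneg_left _ hθ0.le
      rw [mul_comm d]
      exact h2
    refine recip N n hn _ _ _ (by positivity) ?_ ?_ ?_
    · rw [sub_self, mul_zero]
      refine (norm_integral_le_integral_norm _).trans (le_of_eq ?_)
      simp only [norm_e]
      rw [integral_const, smul_eq_mul, mul_one, measureReal_restrict_apply_univ,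
        measureReal_def, Real.volume_Ioc, ENNReal.toReal_ofReal (by linarith)]
      ring
    · intro m hm hlt
      refine far m n hn hm hlt _ ?_
      have h2 := hsep m n hm hn hlt
      have h3 : (0 : ℝ) ≤ ((n - m : ℕ) : ℝ) * d := by positivity
      rw [abs_mul, abs_of_nonneg (by linarith : (0 : ℝ) ≤ x n - x m)]
    · intro m hm hlt
      refine far n m hm hn hlt _ ?_
      have h2 := hsep n m hn hm hlt
      have h3 : (0 : ℝ) ≤ ((m - n : ℕ) : ℝ) * d := by positivity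
      rw [abs_mul, abs_sub_comm, abs_of_nonneg (by linarith : (0 : ℝ) ≤ x m - x n)]
  refine (sum_le_sum h1).trans (le_of_eq ?_)
  rw [sum_const, nsmul_eq_mul, hcard]

/-- Chebyshev -/
lemma cheb (s : Finset ℕ) (x b : ℕ → ℝ) (θ K μ B : ℝ) (hμ : 0 < μ)
    (hB : ∫ α, ‖∑ n ∈ s, e (θ * (α * x n + b n))‖ ^ 2 ∂(volume.restrict (Set.Ioc (-K) K)) ≤ B) :
    volume {α : ℝ | -K < α ∧ α ≤ K ∧ μ ≤ ‖∑ n ∈ s, e (θ * (α * x n + b n))‖} ≤
      ENNReal.ofReal (B / μ ^ 2) := by
  set f : ℝ → ℝ := fun α => ‖∑ n ∈ s, e (θ * (α * x n + b n))‖ ^ 2 with hf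
  have hfc : Continuous f := by
    refine Continuous.pow (Continuous.norm ?_) 2
    refine continuous_finsetSum _ fun n _ => continuous_e.comp ?_
    fun_prop
  have hfb : ∀ α, ‖f α‖ ≤ ((s.card : ℝ)) ^ 2 := by
    intro α
    rw [hf]
    simp only
    rw [norm_pow, norm_norm]
    refine pow_le_pow_left₀ (norm_nonneg _) ((norm_sum_le _ _).trans (le_of_eq ?_)) 2
    simp only [norm_e]
    rw [sum_const, nsmul_eq_mul, mul_one]
  have hfi : Integrable f (volume.restrict (Set.Ioc (-K) K)) :=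
    Integrable.of_bound hfc.aestronglyMeasurable _ (Filter.Eventually.of_forall hfb)
  have h1 := mul_meas_ge_le_integral_of_nonneg (μ := volume.restrict (Set.Ioc (-K) K))
    (f := f) (Filter.Eventually.of_forall fun α => by simp only [hf, Pi.zero_apply]; positivity) hfi (μ ^ 2)
  have h2 : {α : ℝ | -K < α ∧ α ≤ K ∧ μ ≤ ‖∑ n ∈ s, e (θ * (α * x n + b n))‖} =
      {α : ℝ | μ ^ 2 ≤ f α} ∩ Set.Ioc (-K) K := by
    ext α
    simp only [Set.mem_ofPred_eq, Set.mem_inter_iff, Set.mem_Ioc, hf]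
    have : μ ≤ ‖∑ n ∈ s, e (θ * (α * x n + b n))‖ ↔
        μ ^ 2 ≤ ‖∑ n ∈ s, e (θ * (α * x n + b n))‖ ^ 2 :=
      (pow_le_pow_iff_left₀ hμ.le (norm_nonneg _) (by norm_num)).symm
    rw [this]
    tauto
  have hmeas : MeasurableSet {α : ℝ | μ ^ 2 ≤ f α} := measurableSet_le measurable_const hfc.measurable
  rw [h2, ← Measure.restrict_apply hmeas]
  have hfin : volume.restrict (Set.Ioc (-K) K) {α : ℝ | μ ^ 2 ≤ f α} ≠ ⊤ := by
    rw [Measure.restrict_apply hmeas]
    exact ne_top_of_le_ne_top measure_Ioc_lt_top.ne (measure_mono Set.inter_subset_right)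
  rw [← ENNReal.ofReal_toReal hfin]
  apply ENNReal.ofReal_le_ofReal
  rw [le_div_iff₀ (by positivity), mul_comm]
  exact h1.trans hB

end Pool.Agent.Q39.RD
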