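import Pool.Agent.Q39.RD.Cov
import Pool.Agent.Q39.RD.Mean
import Pool.Agent.Y961.JR.ScaledJ

/-!
# Record prime gaps around vectors of dilates: the dimension of the exceptional vectors
-/

set_option autoImplicit false

open Finset Filter MeasureTheory

namespace Pool.Agent.Q39.RD

open Pool.Agent.H469R2.NK (e norm_e e_add conj_e)
open Pool.Agent.W147.PS (ff)

open Classical in
/-- the criterion, with the number of the good indices -/
theorem crit_many (r : ℕ) (hr : 1 ≤ r) (η : ℝ) (h0 : 0 < η) (h1 : η ≤ 1) :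
    ∃ κ : ℝ, 0 < κ ∧ ∀ᶠ M : ℝ in atTop, ∀ (s : Finset ℕ) (a : ℕ → Fin r → ℝ), s.Nonempty →
      (∀ i ∈ s, ∀ j, M ^ η ≤ a i j) →
      (∀ q : ℕ, 1 ≤ q → (q : ℝ) ≤ M ^ η → ∀ h : Fin r → ℤ, h ≠ 0 → (∀ j, |(h j : ℝ)| ≤ M ^ η) →
        ‖∑ i ∈ s, e (∑ j, (h j : ℝ) * (a i j / q))‖ ≤ s.card * M ^ (-(2 * η))) →
      s.card * M ^ (-(2 * η)) ≤
        ((s.filter fun i => ∀ j, ∀ q : ℕ, q.Prime → κ * ff M < |(q : ℝ) - a i j|).card : ℝ) := by
  obtain ⟨κ, hκ, hcrit⟩ := Pool.Agent.Y961.JR.crit_scaledJ r hr η h0 h1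
  refine ⟨κ, hκ, ?_⟩
  filter_upwards [hcrit, eventually_ge_atTop (1 : ℝ),
    (tendsto_rpow_atTop h0).eventually_ge_atTop 4] with M hM hM1 hM4
  intro s a hs ha hE
  by_contra hcon
  push Not at hcon
  have hM0 : 0 < M := by linarith
  set G := s.filter fun i => ∀ j, ∀ q : ℕ, q.Prime → κ * ff M < |(q : ℝ) - a i j| with hG
  have hGs : G ⊆ s := Finset.filter_subset _ _
  have hcs : (0 : ℝ) < s.card := by exact_mod_cast Finset.card_pos.2 hs
  set z : ℝ := M ^ (-η) with hz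
  have hz0 : 0 < z := by positivity
  have hz4 : z ≤ 1 / 4 := by
    rw [hz, Real.rpow_neg hM0.le, ← one_div]
    exact one_div_le_one_div_of_le (by norm_num) hM4
  have hz2 : M ^ (-(2 * η)) = z * z := by
    rw [hz, ← Real.rpow_add hM0]
    congr 1; ring
  rw [hz2] at hcon hE
  have hcard : ((s \ G).card : ℝ) = s.card - G.card := by
    rw [Finset.cast_card_sdiff hGs]
  have hzz : (s.card : ℝ) * (z * z) ≤ s.card * (z * (1 / 4)) :=
    mul_le_mul_of_nonneg_left (mul_le_mul_of_nonneg_left hz4 hz0.le) hcs.le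
  have hz1 : (s.card : ℝ) * z ≤ s.card * (1 / 4) := mul_le_mul_of_nonneg_left hz4 hcs.le
  have hhalf : (s.card : ℝ) / 2 ≤ ((s \ G).card : ℝ) := by
    rw [hcard]
    nlinarith
  have hne : (s \ G).Nonempty := by
    rw [← Finset.card_pos]
    have : (0 : ℝ) < ((s \ G).card : ℝ) := by linarith
    exact_mod_cast this
  obtain ⟨i, hi, hi2⟩ := hM ℕ (s \ G) a hne (fun i hi j => ha i (Finset.mem_sdiff.1 hi).1 j) (by
    intro q hq hqM h hh hhM
    have h2 := hE q hq hqM h hh hhM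
    have h3 : ∑ i ∈ s \ G, e (∑ j, (h j : ℝ) * (a i j / q)) =
        ∑ i ∈ s, e (∑ j, (h j : ℝ) * (a i j / q)) - ∑ i ∈ G, e (∑ j, (h j : ℝ) * (a i j / q)) := by
      rw [← Finset.sum_sdiff hGs]
      ring
    have h4 : ‖∑ i ∈ G, e (∑ j, (h j : ℝ) * (a i j / q))‖ ≤ G.card := by
      refine (norm_sum_le _ _).trans (le_of_eq ?_)
      simp only [norm_e]
      rw [sum_const, nsmul_eq_mul, mul_one]
    rw [h3]
    refine (norm_sub_le _ _).trans ?_
    have h5 : (s.card : ℝ) / 2 * z ≤ ((s \ G).card : ℝ) * z :=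
      mul_le_mul_of_nonneg_right hhalf hz0.le
    linarith)
  have hiG : i ∈ G := by
    rw [hG, Finset.mem_filter]
    exact ⟨(Finset.mem_sdiff.1 hi).1, hi2⟩
  exact (Finset.mem_sdiff.1 hi).2 hiG

lemma e_lip (x y : ℝ) : ‖e x - e y‖ ≤ 2 * Real.pi * |x - y| := by
  have h1 : e x - e y = e y * (e (x - y) - 1) := by
    rw [mul_sub, ← e_add, mul_one]
    congr 2
    ring
  rw [h1, norm_mul, norm_e, one_mul]
  unfold e
  refine (Real.norm_exp_I_mul_ofReal_sub_one_le (x := 2 * Real.pi * (x - y)) |> fun h => ?_)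
  have h2 : Complex.I * ((2 * Real.pi * (x - y) : ℝ) : ℂ) =
      ((2 * Real.pi * (x - y) : ℝ) : ℂ) * Complex.I := mul_comm _ _
  rw [h2] at h
  refine h.trans (le_of_eq ?_)
  rw [Real.norm_eq_abs, abs_mul, abs_of_pos (by have := Real.pi_pos; positivity)]

variable {r : ℕ}

/-- the exponential sum -/
noncomputable def SS (a b : ℕ → Fin r → ℝ) (N q : ℕ) (h : Fin r → ℤ) (α : Fin r → ℝ) : ℂ :=
  ∑ n ∈ Ioc N (2 * N), e (∑ j, (h j : ℝ) * ((α j * a n j + b n j) / q))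

lemma SS_lip (a b : ℕ → Fin r → ℝ) (N q : ℕ) (hq : 1 ≤ q) (h : Fin r → ℤ) (H A δ : ℝ) (hH0 : 0 ≤ H)
    (hδ : 0 ≤ δ) (hH : ∀ j, |(h j : ℝ)| ≤ H) (hA : ∀ n ∈ Ioc N (2 * N), ∀ j, |a n j| ≤ A)
    (α β : Fin r → ℝ) (hαβ : ∀ j, |α j - β j| ≤ δ) :
    ‖SS a b N q h α - SS a b N q h β‖ ≤ N * (2 * Real.pi * (r * (H * (δ * A)))) := by
  have hcard : ((Ioc N (2 * N)).card : ℝ) = N := by
    rw [Nat.card_Ioc]
    congr 1
    omega
  have hq1 : (1 : ℝ) ≤ q := by exact_mod_cast hq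
  have hq0 : (0 : ℝ) < q := by linarith
  unfold SS
  rw [← Finset.sum_sub_distrib]
  refine (norm_sum_le _ _).trans ?_
  have h1 : ∀ n ∈ Ioc N (2 * N), ‖e (∑ j, (h j : ℝ) * ((α j * a n j + b n j) / q)) -
      e (∑ j, (h j : ℝ) * ((β j * a n j + b n j) / q))‖ ≤ 2 * Real.pi * (r * (H * (δ * A))) := by
    intro n hn
    refine (e_lip _ _).trans ?_
    apply mul_le_mul_of_nonneg_left _ (by have := Real.pi_pos; positivity)
    rw [← Finset.sum_sub_distrib]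
    refine (Finset.abs_sum_le_sum_abs _ _).trans ?_
    have h2 : ∀ j ∈ (Finset.univ : Finset (Fin r)),
        |(h j : ℝ) * ((α j * a n j + b n j) / q) - (h j : ℝ) * ((β j * a n j + b n j) / q)| ≤
          H * (δ * A) := by
      intro j _
      have e1 : (h j : ℝ) * ((α j * a n j + b n j) / q) - (h j : ℝ) * ((β j * a n j + b n j) / q) =
          (h j : ℝ) * ((α j - β j) * a n j) / q := by
        field_simp
        ring
      rw [e1, abs_div, abs_of_pos hq0, div_le_iff₀ hq0, abs_mul, abs_mul]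
      have hA0 : 0 ≤ A := (abs_nonneg _).trans (hA n hn j)
      calc |(h j : ℝ)| * (|α j - β j| * |a n j|) ≤ H * (δ * A) := by
            apply mul_le_mul (hH j) _ (by positivity) hH0
            exact mul_le_mul (hαβ j) (hA n hn j) (abs_nonneg _) hδ
        _ = H * (δ * A) * 1 := (mul_one _).symm
        _ ≤ H * (δ * A) * q := mul_le_mul_of_nonneg_left hq1 (by positivity)
    refine (Finset.sum_le_sum h2).trans (le_of_eq ?_)
    rw [sum_const, nsmul_eq_mul, Finset.card_univ, Fintype.card_fin]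
  refine (Finset.sum_le_sum h1).trans (le_of_eq ?_)
  rw [sum_const, nsmul_eq_mul, hcard]

/-- the sum as a function of one of the coordinates -/
lemma SS_update (a b : ℕ → Fin r → ℝ) (N q : ℕ) (h : Fin r → ℤ) (j₀ : Fin r) (hj₀ : h j₀ ≠ 0)
    (hq : 1 ≤ q) (γ : Fin r → ℝ) : ∃ b' : ℕ → ℝ, ∀ t : ℝ,
      SS a b N q h (Function.update γ j₀ t) =
        ∑ n ∈ Ioc N (2 * N), e ((h j₀ : ℝ) / q * (t * a n j₀ + b' n)) := by
  have hq0 : (q : ℝ) ≠ 0 := by
    have : 0 < q := hq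
    positivity
  have hh0 : (h j₀ : ℝ) ≠ 0 := by exact_mod_cast hj₀
  refine ⟨fun n => b n j₀ + (∑ j ∈ Finset.univ.erase j₀,
    (h j : ℝ) * ((γ j * a n j + b n j) / q)) / ((h j₀ : ℝ) / q), fun t => ?_⟩
  unfold SS
  refine Finset.sum_congr rfl fun n _ => ?_
  congr 1
  rw [← Finset.add_sum_erase _ _ (Finset.mem_univ j₀), Function.update_self]
  have h1 : ∑ j ∈ Finset.univ.erase j₀,
      (h j : ℝ) * ((Function.update γ j₀ t j * a n j + b n j) / q) =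
      ∑ j ∈ Finset.univ.erase j₀, (h j : ℝ) * ((γ j * a n j + b n j) / q) := by
    refine Finset.sum_congr rfl fun j hj => ?_
    rw [Function.update_of_ne (Finset.ne_of_mem_erase hj)]
  rw [h1]
  field_simp
  ring

open Classical in
/-- the bad cells for one frequency -/
theorem cells (a b : ℕ → Fin r → ℝ) (N q : ℕ) (hq : 1 ≤ q) (h : Fin r → ℤ)
    (j₀ : Fin r) (hj₀ : h j₀ ≠ 0) (H A A₀ δ μ d : ℝ) (hH0 : 0 ≤ H) (hδ : 0 < δ) (hδ1 : δ < 1)
    (hμ : 0 < μ) (hd : 0 < d) (hA₀ : 0 ≤ A₀) (hH : ∀ j, |(h j : ℝ)| ≤ H)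
    (hA : ∀ n ∈ Ioc N (2 * N), ∀ j, |a n j| ≤ A)
    (hsep : ∀ n m, n ∈ Ioc N (2 * N) → m ∈ Ioc N (2 * N) → n < m →
      ((m - n : ℕ) : ℝ) * d ≤ a m j₀ - a n j₀)
    (hsmall : N * (2 * Real.pi * (r * (H * (δ * A)))) ≤ μ / 2) :
    ((((Fintype.piFinset fun _ : Fin r => Finset.Icc ⌊-A₀ / δ⌋ ⌊A₀ / δ⌋).filter
      fun m => ∃ α : Fin r → ℝ, (∀ j, |α j| ≤ A₀) ∧ μ ≤ ‖SS a b N q h α‖ ∧ α ∈ cell δ m).card : ℕ) : ℝ) ≤
      (N * (2 * (A₀ + 1) + 2 * (1 / (1 / q * d) * (1 + Real.log N)))) / (μ / 2) ^ 2 / δ *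
        (2 * (A₀ / δ) + 2) ^ (r - 1) := by
  set I : Finset ℤ := Finset.Icc ⌊-A₀ / δ⌋ ⌊A₀ / δ⌋ with hI
  set T := (Fintype.piFinset fun _ : Fin r => I).filter
      fun m => ∃ α : Fin r → ℝ, (∀ j, |α j| ≤ A₀) ∧ μ ≤ ‖SS a b N q h α‖ ∧ α ∈ cell δ m with hT
  set B : ℝ := N * (2 * (A₀ + 1) + 2 * (1 / (1 / q * d) * (1 + Real.log N))) with hB
  have hq1 : (1 : ℝ) ≤ q := by exact_mod_cast hq
  have hq0 : (0 : ℝ) < q := by linarith
  have hlog : 0 ≤ Real.log N := by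
    rcases Nat.eq_zero_or_pos N with h1 | h1
    · rw [h1]; simp
    · exact Real.log_nonneg (by exact_mod_cast h1)
  have hB0 : 0 ≤ B := by positivity
  set W : ℕ := ⌊B / (μ / 2) ^ 2 / δ⌋₊ with hW
  have hlines := card_lines I T j₀ W (fun m hm j => by
      rw [hT, Finset.mem_filter, Fintype.mem_piFinset] at hm
      exact hm.1 j) (by
    intro m'
    apply Nat.le_floor
    obtain ⟨b', hb'⟩ := SS_update a b N q h j₀ hj₀ hq (fun j => (m' j : ℝ) * δ)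
    have hθ : (h j₀ : ℝ) / q ≠ 0 := by
      apply div_ne_zero _ hq0.ne'
      exact_mod_cast hj₀
    have hθ1 : 1 / (q : ℝ) ≤ |(h j₀ : ℝ) / q| := by
      rw [abs_div, abs_of_pos hq0]
      apply div_le_div_of_nonneg_right _ hq0.le
      have : (1 : ℤ) ≤ |h j₀| := Int.one_le_abs hj₀
      exact_mod_cast this
    have hmean := Pool.Agent.Q39.RD.mean_lin N (fun n => a n j₀) b' ((h j₀ : ℝ) / q) d (A₀ + 1) hθ hd
      (by linarith) hsep
    have hmean2 : ∫ α, ‖∑ n ∈ Ioc N (2 * N), e ((h j₀ : ℝ) / q * (α * a n j₀ + b' n))‖ ^ 2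
        ∂(volume.restrict (Set.Ioc (-(A₀ + 1)) (A₀ + 1))) ≤ B := by
      refine hmean.trans ?_
      rw [hB]
      apply mul_le_mul_of_nonneg_left _ (by positivity)
      gcongr
    have hch := cheb (Ioc N (2 * N)) (fun n => a n j₀) b' ((h j₀ : ℝ) / q) (A₀ + 1) (μ / 2) B
      (by positivity) hmean2
    refine card_cells _ _ δ (B / (μ / 2) ^ 2) hδ (by positivity) ?_ hch
    intro k hk t ht1 ht2
    rw [Finset.mem_image] at hk
    obtain ⟨m, hm, rfl⟩ := hk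
    rw [Finset.mem_filter, hT, Finset.mem_filter] at hm
    obtain ⟨⟨_, α, hα1, hα2, hα3⟩, hm2⟩ := hm
    rw [mem_cell_iff hδ] at hα3
    have hclose : ∀ j, |Function.update (fun j => (m' j : ℝ) * δ) j₀ t j - α j| ≤ δ := by
      intro j
      by_cases hj : j = j₀
      · subst hj
        rw [Function.update_self, abs_le]
        have := hα3 j
        constructor <;> nlinarith [this.1, this.2]
      · rw [Function.update_of_ne hj, abs_le, ← hm2 j hj]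
        have := hα3 j
        constructor <;> nlinarith [this.1, this.2]
    have h1 := SS_lip a b N q hq h H A δ hH0 hδ.le hH hA _ _ hclose
    have h2 : ‖SS a b N q h α‖ - ‖SS a b N q h (Function.update (fun j => (m' j : ℝ) * δ) j₀ t)‖ ≤
        ‖SS a b N q h (Function.update (fun j => (m' j : ℝ) * δ) j₀ t) - SS a b N q h α‖ := by
      rw [norm_sub_rev]
      exact norm_sub_norm_le _ _
    have h3 : μ / 2 ≤ ‖SS a b N q h (Function.update (fun j => (m' j : ℝ) * δ) j₀ t)‖ := by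
      linarith
    rw [hb' t] at h3
    have h4 := abs_le.1 (hα1 j₀)
    have h5 := hα3 j₀
    refine ⟨?_, ?_, h3⟩
    · nlinarith [h5.1, h5.2]
    · nlinarith [h5.1, h5.2])
  have hI2 : (I.card : ℝ) ≤ 2 * (A₀ / δ) + 2 := by
    rw [hI, Int.card_Icc]
    have h1 : (⌊A₀ / δ⌋ : ℝ) ≤ A₀ / δ := Int.floor_le _
    have h2 : -A₀ / δ < (⌊-A₀ / δ⌋ : ℝ) + 1 := Int.lt_floor_add_one _
    have h3 : -A₀ / δ = -(A₀ / δ) := by ring
    rw [h3] at h2
    have h0 : 0 ≤ A₀ / δ := by positivity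
    have h4 : (0 : ℤ) ≤ ⌊A₀ / δ⌋ + 1 - ⌊-A₀ / δ⌋ := by
      have h5 : (0 : ℤ) ≤ ⌊A₀ / δ⌋ := Int.floor_nonneg.2 h0
      have h6 : ⌊-A₀ / δ⌋ ≤ 0 := by
        rw [h3]
        exact Int.floor_nonpos (by linarith)
      omega
    have h5 : (((⌊A₀ / δ⌋ + 1 - ⌊-A₀ / δ⌋).toNat : ℕ) : ℝ) =
        ((⌊A₀ / δ⌋ + 1 - ⌊-A₀ / δ⌋ : ℤ) : ℝ) := by
      rw [← Int.cast_natCast, Int.toNat_of_nonneg h4]
    rw [h5]
    push_cast
    rw [h3]
    linarith
  calc ((T.card : ℕ) : ℝ) ≤ ((W * I.card ^ (r - 1) : ℕ) : ℝ) := by exact_mod_cast hlines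
    _ = (W : ℝ) * (I.card : ℝ) ^ (r - 1) := by push_cast; ring
    _ ≤ _ := by
        apply mul_le_mul (Nat.floor_le (by positivity)) _ (by positivity) (by positivity)
        exact pow_le_pow_left₀ (by positivity) hI2 _

end Pool.Agent.Q39.RD
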